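import Pool.Agent.N926.Qd.A

/-! exact identities in a commutative ring with a map from `ℚ` -/

set_option autoImplicit false
set_option linter.unusedVariables false
set_option linter.unusedSectionVars false

namespace Pool.Agent.N926.Qe

open Finset Polynomial Pool.Agent.N926.Qd

noncomputable section

variable {R : Type*} [CommRing R] (A : ℚ →+* R)

def Sg (c : ℕ → ℚ) (N : ℕ) (x : R) : R := ∑ k ∈ range N, A (c k) * x^k

/-- polynomial with given coefficients -/
def Pc (c : ℕ → ℚ) (N : ℕ) : ℚ[X] := ∑ k ∈ range N, C (c k) * X^k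

theorem ev_Pc (c : ℕ → ℚ) (N : ℕ) (x : R) : eval₂ A x (Pc c N) = Sg A c N x := by
  unfold Pc Sg
  rw [eval₂_finset_sum]
  exact sum_congr rfl fun k _ => by rw [eval₂_mul, eval₂_C, eval₂_pow, eval₂_X]

theorem th_Pc (c : ℕ → ℚ) (N : ℕ) : X * derivative (Pc c N) = Pc (fun k => k * c k) N := by
  unfold Pc
  rw [derivative_sum, mul_sum]
  refine sum_congr rfl fun k _ => ?_
  rw [derivative_C_mul, C_mul]
  rcases k with _ | k
  · simp
  · rw [derivative_pow, derivative_X, Nat.add_sub_cancel, pow_succ]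
    simp only [map_natCast]
    ring

def leg (n k : ℕ) : ℚ := ((n.choose k * (n+k).choose k : ℕ) : ℚ) * (-1)^k

theorem leg_map (n : ℕ) : (shiftedLegendre n).map (Int.castRingHom ℚ) = Pc (leg n) (n+1) := by
  unfold Pc shiftedLegendre leg
  rw [Polynomial.map_sum]
  refine sum_congr rfl fun k _ => ?_
  rw [Polynomial.map_mul, Polynomial.map_pow, map_X, map_C]
  congr 2
  have : (n+k).choose n = (n+k).choose k := Nat.choose_symm_add
  rw [this]
  simp
  ring

theorem leg_comp (n : ℕ) : (-1)^n * (Pc (leg n) (n+1)).comp (1-X) = Pc (leg n) (n+1) := by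
  have h := congrArg (Polynomial.map (Int.castRingHom ℚ)) (neg_one_pow_mul_shiftedLegendre_comp_one_sub_X_eq n)
  rw [Polynomial.map_mul, Polynomial.map_comp, leg_map] at h
  simpa using h

theorem leg0 (n : ℕ) (x : R) : Sg A (leg n) (n+1) x = (-1)^n * Sg A (leg n) (n+1) (1-x) := by
  have h := congrArg (eval₂ A x) (leg_comp n)
  rw [eval₂_mul, eval₂_comp, eval₂_sub, eval₂_one, eval₂_X, ev_Pc, ev_Pc, eval₂_pow, eval₂_neg, eval₂_one] at h
  exact h.symm

theorem leg1 (n : ℕ) (x : R) : (1-x) * Sg A (fun k => k * leg n k) (n+1) x = -((-1)^n * (x * Sg A (fun k => k * leg n k) (n+1) (1-x))) := by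
  have h := congrArg derivative (leg_comp n)
  have e1 : (-1:ℚ[X])^n = C ((-1)^n) := by simp
  rw [e1, derivative_C_mul, derivative_comp] at h
  have h2 := congrArg (eval₂ A x) h
  rw [eval₂_mul, eval₂_mul, eval₂_comp, eval₂_sub, eval₂_one, eval₂_X, eval₂_C] at h2
  have e2 : eval₂ A x (derivative (1 - X : ℚ[X])) = -1 := by
    simp
  rw [e2] at h2
  have h3 := congrArg (eval₂ A x) (th_Pc (leg n) (n+1))
  have h4 := congrArg (eval₂ A (1-x)) (th_Pc (leg n) (n+1))
  rw [eval₂_mul, eval₂_X, ev_Pc] at h3 h4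
  rw [← h3, ← h4, ← h2, map_pow, map_neg, map_one]
  ring

section
variable (x u : R) (hu : (1-x)*u = 1)
include hu

theorem pf0 (h : ℕ) : Sg A (leg h) (h+1) x =
      (1-x)^h * Sg A (fun k => ((h.choose k : ℕ) : ℚ)^2) (h+1) (-(x*u)) := by
  have h1 := congrArg (eval₂RingHom A x) (pfaff h)
  simp only [map_sum, map_mul, map_natCast, map_pow, map_neg, coe_eval₂RingHom, eval₂_X, map_sub, map_one] at h1
  unfold Sg leg
  have e1 : ∑ k ∈ range (h+1), A (((h.choose k * (h+k).choose k : ℕ) : ℚ) * (-1)^k) * x^k = ∑ n ∈ range (h+1), (((h.choose n * (h+n).choose n : ℕ)) : R) * (-x)^n := by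
    refine sum_congr rfl fun n _ => ?_
    rw [map_mul, map_pow, map_neg, map_one, map_natCast, neg_pow x]
    ring
  rw [e1, h1, mul_sum]
  refine sum_congr rfl fun k hk => ?_
  rw [mem_range] at hk
  have k1 : (1-x)^(h-k) = (1-x)^h * u^k := by
    have : h = (h-k) + k := by omega
    conv_rhs => rw [this, pow_add, mul_assoc, ← mul_pow, hu, one_pow, mul_one]
  rw [k1, show -(x*u) = (-x)*u by ring, mul_pow (-x) u, map_pow, map_natCast]
  push_cast
  ring

theorem pf1 (h : ℕ) : Sg A (fun k => k * leg h k) (h+1) x =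
      (1-x)^h * (u * Sg A (fun k => k * ((h.choose k : ℕ) : ℚ)^2) (h+1) (-(x*u)) -
        A h * x * u * Sg A (fun k => ((h.choose k : ℕ) : ℚ)^2) (h+1) (-(x*u))) := by
  have h0 := congrArg (fun f : ℚ[X] => X * derivative f) (pfaff h)
  simp only [derivative_sum, mul_sum] at h0
  have e1 : ∀ n ∈ range (h+1), X * derivative ((((h.choose n * (h+n).choose n : ℕ)) : ℚ[X]) * (-X)^n) = C (n * ((h.choose n * (h+n).choose n : ℕ) : ℚ)) * (-X : ℚ[X])^n := by
    intro n _
    have : (((h.choose n * (h+n).choose n : ℕ)) : ℚ[X]) = C ((h.choose n * (h+n).choose n : ℕ) : ℚ) := by simp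
    rw [this, derivative_C_mul, C_mul]
    rcases n with _ | n
    · simp
    · rw [derivative_pow]
      simp only [derivative_neg, derivative_X, Nat.add_sub_cancel]
      rw [pow_succ]
      ring
  have e2 : ∀ k ∈ range (h+1), X * derivative ((((h.choose k)^2 : ℕ) : ℚ[X]) * ((-X)^k * (1-X)^(h-k))) =
      C (((h.choose k)^2 : ℕ) : ℚ) * (C (k:ℚ) * ((-X)^k * (1-X)^(h-k)) - C ((h-k:ℕ):ℚ) * (X * (-X)^k * (1-X)^(h-k-1)) : ℚ[X]) := by
    intro k _
    have : (((h.choose k)^2 : ℕ) : ℚ[X]) = C (((h.choose k)^2 : ℕ) : ℚ) := by simp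
    rw [this, derivative_C_mul, derivative_mul, derivative_pow, derivative_pow]
    simp only [derivative_sub, derivative_one, derivative_X, derivative_neg]
    rcases k with _ | k
    · simp
      ring
    · rw [Nat.add_sub_cancel, pow_succ (-X) k]
      ring
  rw [sum_congr rfl e1, sum_congr rfl e2] at h0
  have h1 := congrArg (eval₂RingHom A x) h0
  simp only [map_sum, map_mul, map_pow, map_neg, coe_eval₂RingHom, eval₂_C, eval₂_X, map_sub, map_one] at h1
  unfold Sg leg
  have h2 : ∑ k ∈ range (h+1), A ((k:ℚ) * (((h.choose k * (h+k).choose k : ℕ) : ℚ) * (-1)^k)) * x^k =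
      ∑ n ∈ range (h+1), A (n:ℚ) * A ((h.choose n * (h+n).choose n : ℕ) : ℚ) * (-x)^n := by
    refine sum_congr rfl fun n _ => ?_
    rw [map_mul, map_mul, map_pow, map_neg, map_one, neg_pow x]
    ring
  rw [h2, h1, mul_sum, mul_sum, ← sum_sub_distrib, mul_sum]
  refine sum_congr rfl fun k hk => ?_
  rw [mem_range] at hk
  have k1 : (1-x)^(h-k) = (1-x)^h * u^k := by
    have : h = (h-k) + k := by omega
    conv_rhs => rw [this, pow_add, mul_assoc, ← mul_pow, hu, one_pow, mul_one]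
  have k2 : A ((h-k:ℕ):ℚ) * (1-x)^(h-k-1) = A ((h-k:ℕ):ℚ) * ((1-x)^h * u^k * u) := by
    rcases Nat.eq_zero_or_pos (h-k) with hz | hz
    · rw [hz]; simp
    · rw [← k1]
      congr 1
      have : h - k = (h-k-1)+1 := by omega
      conv_rhs => rw [this, pow_succ, mul_assoc, hu, mul_one]
  have k3 : ((h-k:ℕ):ℚ) = (h:ℚ) - k := by rw [Nat.cast_sub (by omega)]
  have k5 : 1 + x*u = u := by linear_combination (-1:R) * hu
  have k6 : A (((h.choose k)^2 : ℕ) : ℚ) = A (((h.choose k : ℕ) : ℚ)^2) := by push_cast; rfl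
  calc A (((h.choose k)^2 : ℕ) : ℚ) * (A (k:ℚ) * ((-x)^k * (1-x)^(h-k)) - A ((h-k:ℕ):ℚ) * (x * (-x)^k * (1-x)^(h-k-1)))
      = A (((h.choose k)^2 : ℕ) : ℚ) * (A (k:ℚ) * ((-x)^k * (1-x)^(h-k)) - (A ((h-k:ℕ):ℚ) * (1-x)^(h-k-1)) * (x * (-x)^k)) := by ring
    _ = A (((h.choose k)^2 : ℕ) : ℚ) * (A (k:ℚ) * ((-x)^k * ((1-x)^h * u^k)) - (A ((h:ℚ)-k) * ((1-x)^h * u^k * u)) * (x * (-x)^k)) := by rw [k2, k1, k3]
    _ = (1-x)^h * ((1+x*u) * (A (k * ((h.choose k : ℕ) : ℚ)^2) * (-(x*u))^k) - A h * x * u * (A (((h.choose k : ℕ) : ℚ)^2) * (-(x*u))^k)) := by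
      rw [show -(x*u) = (-x)*u by ring, mul_pow (-x) u, map_mul, map_sub, k6]
      ring
    _ = _ := by rw [k5]

end

/-- coefficient comparison: a terminating Landen transformation -/
theorem landen_ring {S : Type*} [CommRing S] (y : S) (n : ℕ) :
    ∑ j ∈ range (n+1), ((n.choose j : ℕ) : S)^2 * y^(2*j) =
    ∑ k ∈ range (n+1), ((n.choose k : ℕ) : S) * (-y)^k * (((2*k).choose k : ℕ) : S) * ((1+y)^2)^(n-k) := by
  have key : (1 + C (-y) * X)^n * (X + C (-y))^n = (C ((1+y)^2) * X + C (-y) * (1+X)^2 : S[X])^n := by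
    rw [← mul_pow]
    congr 1
    simp only [map_neg, map_pow, map_add, map_one]
    ring
  have h1 : ((1 + C (-y) * X : S[X])^n * (X + C (-y))^n).coeff n = ((C ((1+y)^2) * X + C (-y) * (1+X)^2 : S[X])^n).coeff n := by rw [key]
  have e1 : ∀ i, ((1 + C (-y) * X : S[X])^n).coeff i = ((n.choose i : ℕ) : S) * (-y)^i := by
    intro i
    have : (1 + C (-y) * X : S[X])^n = ∑ m ∈ range (n+1), C (((n.choose m : ℕ) : S) * (-y)^m) * X^m := by
      rw [add_comm, add_pow]
      refine sum_congr rfl fun m _ => ?_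
      rw [one_pow, mul_one, mul_pow, C_mul, ← C_pow]
      simp only [map_natCast]
      ring
    rw [this, finset_sum_coeff]
    simp only [coeff_C_mul_X_pow]
    by_cases hi : i ∈ range (n+1)
    · rw [sum_ite_eq]
      simp [hi]
    · rw [sum_ite_eq]
      rw [if_neg hi]
      rw [mem_range] at hi
      rw [Nat.choose_eq_zero_of_lt (by omega)]; simp
  have lhs : ((1 + C (-y) * X : S[X])^n * (X + C (-y))^n).coeff n = ∑ j ∈ range (n+1), ((n.choose j : ℕ) : S)^2 * y^(2*j) := by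
    rw [coeff_mul, Finset.Nat.sum_antidiagonal_eq_sum_range_succ_mk]
    refine sum_congr rfl fun j hj => ?_
    rw [mem_range] at hj
    rw [e1, coeff_X_add_C_pow]
    have : n - (n - j) = j := by omega
    rw [this, Nat.choose_symm (by omega)]
    rw [pow_mul]
    have : (-y)^j * (-y)^j = (y^2)^j := by rw [← mul_pow]; ring
    linear_combination ((n.choose j : ℕ) : S)^2 * this
  have rhs : ((C ((1+y)^2) * X + C (-y) * (1+X)^2 : S[X])^n).coeff n = ∑ k ∈ range (n+1), ((n.choose k : ℕ) : S) * (-y)^k * (((2*k).choose k : ℕ) : S) * ((1+y)^2)^(n-k) := by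
    rw [add_comm, add_pow, finset_sum_coeff]
    refine sum_congr rfl fun k hk => ?_
    rw [mem_range] at hk
    have e : (C (-y) * (1+X)^2 : S[X])^k * (C ((1+y)^2) * X)^(n-k) * ((n.choose k : ℕ) : S[X]) =
        C (((n.choose k : ℕ) : S) * (-y)^k * ((1+y)^2)^(n-k)) * ((1+X)^(2*k) * X^(n-k)) := by
      simp only [C_mul, C_pow, map_natCast, mul_pow, ← pow_mul]
      ring
    rw [e, coeff_C_mul, coeff_mul_X_pow', if_pos (by omega), show n - (n-k) = k by omega, coeff_one_add_X_pow]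
    ring
  rw [lhs, rhs] at h1
  exact h1

end

end Pool.Agent.N926.Qe
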