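import Pool.Agent.N926.Qe.A

/-! Landen and reversal in a commutative ring with a map from `ℚ` -/

set_option autoImplicit false
set_option linter.unusedVariables false
set_option linter.unusedSectionVars false

namespace Pool.Agent.N926.Qe

open Finset Polynomial Pool.Agent.N926.Qd

noncomputable section

variable {R : Type*} [CommRing R] (A : ℚ →+* R)

def pbq (h k : ℕ) : ℚ := ((h.choose k : ℕ) : ℚ)^2
def dd (h k : ℕ) : ℚ := ((h.choose k : ℕ) : ℚ) * (-1)^k * (((2*k).choose k : ℕ) : ℚ) / 4^k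

theorem rev0 (x x' : R) (hx : x*x' = 1) (n : ℕ) (c : ℕ → ℚ) : Sg A (fun k => c (n-k)) (n+1) x = x^n * Sg A c (n+1) x' := by
  unfold Sg
  rw [← sum_range_reflect, mul_sum]
  refine sum_congr rfl fun k hk => ?_
  rw [mem_range] at hk
  rw [show n+1-1-k = n-k by omega]
  beta_reduce
  rw [show n-(n-k) = k by omega]
  have : x^n = x^(n-k) * x^k := by rw [← pow_add]; congr 1; omega
  rw [this]
  have h1 : x^k * x'^k = 1 := by rw [← mul_pow, hx, one_pow]
  linear_combination (-(A (c k) * x^(n-k))) * h1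

theorem rev1 (x x' : R) (hx : x*x' = 1) (n : ℕ) (c : ℕ → ℚ) : Sg A (fun k => k * c (n-k)) (n+1) x =
    x^n * (A n * Sg A c (n+1) x' - Sg A (fun k => k * c k) (n+1) x') := by
  unfold Sg
  rw [← sum_range_reflect, mul_sum, ← sum_sub_distrib, mul_sum]
  refine sum_congr rfl fun k hk => ?_
  rw [mem_range] at hk
  rw [show n+1-1-k = n-k by omega]
  beta_reduce
  rw [show n-(n-k) = k by omega, Nat.cast_sub (by omega), map_mul, map_mul, map_sub]
  have : x^n = x^(n-k) * x^k := by rw [← pow_add]; congr 1; omega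
  rw [this]
  have h1 : x^k * x'^k = 1 := by rw [← mul_pow, hx, one_pow]
  linear_combination (-((A n - A k) * A (c k) * x^(n-k))) * h1

section
variable (y e e' : R) (h1 : (1+y)^2 = y*e) (h2 : e*e' = 1)
include h1 h2

theorem pow_aux (n k : ℕ) (hk : k ≤ n) : (-y)^k * ((1+y)^2)^(n-k) = (-1)^k * (y^n * e^n * e'^k) := by
  rw [h1, mul_pow y e, neg_pow y]
  have a : y^n = y^k * y^(n-k) := by rw [← pow_add]; congr 1; omega
  have b : e^n = e^(n-k) * e^k := by rw [← pow_add]; congr 1; omega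
  have c : e^k * e'^k = 1 := by rw [← mul_pow, h2, one_pow]
  rw [a, b]
  linear_combination (-((-1)^k * y^k * y^(n-k) * e^(n-k))) * c

theorem lan0 (n : ℕ) : Sg A (pbq n) (n+1) (y^2) = y^n * e^n * Sg A (dd n) (n+1) (A 4 * e') := by
  have h := landen_ring y n
  unfold Sg pbq dd
  have e1 : ∑ k ∈ range (n+1), A (((n.choose k : ℕ) : ℚ)^2) * (y^2)^k = ∑ j ∈ range (n+1), ((n.choose j : ℕ) : R)^2 * y^(2*j) := by
    refine sum_congr rfl fun k _ => ?_
    rw [map_pow, map_natCast, ← pow_mul]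
  rw [e1, h, mul_sum]
  refine sum_congr rfl fun k hk => ?_
  rw [mem_range] at hk
  have a := pow_aux y e e' h1 h2 n k (by omega)
  have b : A (((n.choose k : ℕ) : ℚ) * (-1)^k * (((2*k).choose k : ℕ) : ℚ) / 4^k) * (A 4 * e')^k = ((n.choose k : ℕ) : R) * (-1)^k * (((2*k).choose k : ℕ) : R) * e'^k := by
    have : A (((n.choose k : ℕ) : ℚ) * (-1)^k * (((2*k).choose k : ℕ) : ℚ) / 4^k) * (A 4)^k = ((n.choose k : ℕ) : R) * (-1)^k * (((2*k).choose k : ℕ) : R) := by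
      rw [← map_pow, ← map_mul, div_mul_cancel₀ _ (by positivity : (4:ℚ)^k ≠ 0)]
      simp
    rw [mul_pow, ← mul_assoc, this]
  rw [b]
  linear_combination (((n.choose k : ℕ) : R) * (((2*k).choose k : ℕ) : R)) * a

theorem lan_der (k m : ℕ) : (1+(X:ℚ[X])) * (X * derivative ((X:ℚ[X])^k * (1+(X:ℚ[X]))^(2*m))) = (X:ℚ[X])^k * (1+(X:ℚ[X]))^(2*m) * (C (k:ℚ) * (1+(X:ℚ[X])) + C (2*m:ℚ) * (X:ℚ[X])) := by
  have hC2 : (C (2:ℚ) : ℚ[X]) = 2 := map_ofNat C 2
  rw [derivative_mul, derivative_pow, derivative_pow]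
  simp only [derivative_X, derivative_add, derivative_one, map_natCast]
  rcases k with _ | k
  · rcases m with _ | m
    · simp
    · rw [show 2*(m+1)-1 = 2*m+1 by omega, show 2*(m+1) = 2*m+1+1 by ring, pow_succ (1+X) (2*m+1)]
      simp [hC2]
      ring
  · rcases m with _ | m
    · simp
      ring
    · rw [show 2*(m+1)-1 = 2*m+1 by omega, show 2*(m+1) = 2*m+1+1 by ring, pow_succ (1+X) (2*m+1), Nat.add_sub_cancel, pow_succ X k]
      simp [hC2]
      ring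

theorem lan1 (n : ℕ) : (1+y) * (2 * Sg A (fun k => k * pbq n k) (n+1) (y^2)) =
    y^n * e^n * ((1-y) * Sg A (fun k => k * dd n k) (n+1) (A 4 * e') + 2 * A n * y * Sg A (dd n) (n+1) (A 4 * e')) := by
  have h := landen_ring (X : ℚ[X]) n
  have hL : ∑ j ∈ range (n+1), ((n.choose j : ℕ) : ℚ[X])^2 * (X:ℚ[X])^(2*j) = ∑ j ∈ range (n+1), C (((n.choose j : ℕ) : ℚ)^2) * (X:ℚ[X])^(2*j) := by
    refine sum_congr rfl fun j _ => ?_
    rw [C_pow, map_natCast]
  have hR : ∑ k ∈ range (n+1), ((n.choose k : ℕ) : ℚ[X]) * (-(X:ℚ[X]))^k * (((2*k).choose k : ℕ) : ℚ[X]) * ((1+(X:ℚ[X]))^2)^(n-k) =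
      ∑ k ∈ range (n+1), C (((n.choose k : ℕ) : ℚ) * (-1)^k * (((2*k).choose k : ℕ) : ℚ)) * ((X:ℚ[X])^k * (1+(X:ℚ[X]))^(2*(n-k))) := by
    refine sum_congr rfl fun k _ => ?_
    rw [← pow_mul, neg_pow (X:ℚ[X])]
    simp only [C_mul, C_pow, map_natCast, map_neg, map_one]
    ring
  rw [hL, hR] at h
  have h0 := congrArg (fun f : ℚ[X] => (1+X) * (X * derivative f)) h
  simp only [derivative_sum, mul_sum] at h0
  have e1 : ∀ j ∈ range (n+1), (1+(X:ℚ[X])) * (X * derivative (C (((n.choose j : ℕ) : ℚ)^2) * (X:ℚ[X])^(2*j))) = (1+(X:ℚ[X])) * (C (2*(j:ℚ)) * C (((n.choose j : ℕ) : ℚ)^2) * (X:ℚ[X])^(2*j)) := by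
    have hC2 : (C (2:ℚ) : ℚ[X]) = 2 := map_ofNat C 2
    intro j _
    rw [derivative_C_mul]
    rcases j with _ | j
    · simp
    · rw [derivative_pow, derivative_X, show 2*(j+1)-1 = 2*j+1 by omega, show 2*(j+1) = 2*j+1+1 by ring, pow_succ (X:ℚ[X]) (2*j+1)]
      simp only [map_natCast, mul_one, Nat.cast_add, Nat.cast_mul, Nat.cast_ofNat, Nat.cast_one, C_mul, hC2, C_pow, map_add, map_one]
      ring
  have e2 : ∀ k ∈ range (n+1), (1+(X:ℚ[X])) * (X * derivative (C (((n.choose k : ℕ) : ℚ) * (-1)^k * (((2*k).choose k : ℕ) : ℚ)) * ((X:ℚ[X])^k * (1+(X:ℚ[X]))^(2*(n-k))))) =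
      C (((n.choose k : ℕ) : ℚ) * (-1)^k * (((2*k).choose k : ℕ) : ℚ)) * ((X:ℚ[X])^k * (1+(X:ℚ[X]))^(2*(n-k)) * (C (k:ℚ) * (1+(X:ℚ[X])) + C (2*((n-k:ℕ):ℚ)) * (X:ℚ[X]))) := by
    intro k _
    rw [derivative_C_mul, ← lan_der y e e' h1 h2 k (n-k)]
    ring
  rw [sum_congr rfl e1, sum_congr rfl e2] at h0
  have h3 := congrArg (eval₂RingHom A y) h0
  simp only [map_sum, map_mul, map_pow, coe_eval₂RingHom, eval₂_C, eval₂_X, map_add, map_one] at h3
  have f1 : (1+y) * (2 * Sg A (fun k => k * pbq n k) (n+1) (y^2)) = ∑ x ∈ range (n+1), (1+y) * (A 2 * A (x:ℚ) * A ((n.choose x : ℕ) : ℚ)^2 * y^(2*x)) := by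
    unfold Sg pbq
    rw [mul_sum, mul_sum]
    refine sum_congr rfl fun k _ => ?_
    rw [map_mul, map_pow, ← pow_mul, map_ofNat]
    ring
  rw [f1, h3]
  unfold Sg dd
  rw [mul_sum, mul_sum, ← sum_add_distrib, mul_sum]
  refine sum_congr rfl fun k hk => ?_
  rw [mem_range] at hk
  have a := pow_aux y e e' h1 h2 n k (by omega)
  have b : ∀ q : ℚ, A (q * (((n.choose k : ℕ) : ℚ) * (-1)^k * (((2*k).choose k : ℕ) : ℚ) / 4^k)) * (A 4 * e')^k = A q * (A ((n.choose k : ℕ) : ℚ) * (-1)^k * A (((2*k).choose k : ℕ) : ℚ) * e'^k) := by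
    intro q
    have : A (q * (((n.choose k : ℕ) : ℚ) * (-1)^k * (((2*k).choose k : ℕ) : ℚ) / 4^k)) * (A 4)^k = A q * (A ((n.choose k : ℕ) : ℚ) * (-1)^k * A (((2*k).choose k : ℕ) : ℚ)) := by
      have h5 : (-1:R)^k = A ((-1)^k) := by simp
      rw [h5, ← map_pow, ← map_mul, ← map_mul, ← map_mul, ← map_mul]
      congr 1
      have : (4:ℚ)^k ≠ 0 := by positivity
      field_simp
    rw [mul_pow, ← mul_assoc, this]
    ring
  have b1 := b 1
  rw [one_mul, map_one, one_mul] at b1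
  rw [b, b1, Nat.cast_sub (by omega), map_sub, map_neg, map_one, map_ofNat]
  have a' : y^k * (1+y)^(2*(n-k)) = y^n * e^n * e'^k := by
    rw [neg_pow y, ← pow_mul] at a
    have h6 : ((-1:R)^k)*(-1)^k = 1 := by rw [← mul_pow]; simp
    linear_combination (-1:R)^k * a + (y^n*e^n*e'^k - y^k * (1+y)^(2*(n-k))) * h6
  rw [a']
  ring

end

end

end Pool.Agent.N926.Qe
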