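import Pool.Agent.N926.Qe.B
import Pool.Agent.N926.Qd.J

/-! coefficient congruences for reversal and the degree `h+p` Legendre polynomial -/

set_option autoImplicit false
set_option linter.unusedVariables false
set_option linter.unusedSectionVars false

namespace Pool.Agent.N926.Qe

open Finset Pool.Agent.N926.Sup2 Pool.Agent.N926.Sup Pool.Agent.N926.F54 Pool.Agent.N926.F37 Pool.Agent.N926.Tri Pool.Agent.N926.Fib Pool.Agent.N926.Qd

theorem leg_prod (n k : ℕ) : leg n k = ∏ j ∈ range k, (((j:ℚ)-n)*((n:ℚ)+j+1)/((j:ℚ)+1)^2) := by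
  induction k with
  | zero => simp [leg]
  | succ k ih =>
    rw [prod_range_succ, ← ih]
    unfold leg
    have h1 := ch_up n k
    have h2 := ch_diag (n+k) k
    have hk : (k:ℚ)+1 ≠ 0 := by positivity
    have e1 : ((n.choose (k+1) : ℕ) : ℚ) = ((n:ℚ)-k) * ((n.choose k : ℕ) : ℚ) / ((k:ℚ)+1) := by rw [eq_div_iff hk]; linarith
    have e2 : (((n+(k+1)).choose (k+1) : ℕ) : ℚ) = ((n:ℚ)+k+1) * (((n+k).choose k : ℕ) : ℚ) / ((k:ℚ)+1) := by
      rw [eq_div_iff hk, show n+(k+1) = n+k+1 by ring]; push_cast at h2; linarith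
    rw [Nat.cast_mul, e1, e2, Nat.cast_mul, pow_succ]
    field_simp
    ring

section
variable {p : ℕ} [hp : Fact p.Prime]

theorem tt_rev {h : ℕ} (hh : p = 2*h+1) (k : ℕ) (hk : k ≤ h) : Qd.tt (h-k) = Qd.tt h * (Qd.tt k * UU p 1 k ^ 2 / PR p (1/2) 0 k ^ 2) := by
  induction k with
  | zero => simp [Qd.tt, UU, PR]
  | succ k ih =>
    have ih := ih (by omega)
    have hpq : (p:ℚ) = 2*h+1 := by rw [hh]; push_cast; ring
    have e1 : Qd.tt (h-k) = Qd.tt (h-(k+1)) * ((2*((h-(k+1):ℕ):ℚ)+1)/(2*(((h-(k+1):ℕ):ℚ)+1)))^2 := by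
      have : h-k = (h-(k+1))+1 := by omega
      rw [this]; unfold Qd.tt; rw [prod_range_succ]
    have ec : ((h-(k+1):ℕ):ℚ) = (h:ℚ)-k-1 := by rw [Nat.cast_sub (by omega)]; push_cast; ring
    rw [ec] at e1
    have a1 : (h:ℚ)-k ≠ 0 := by
      have : (k:ℚ) + 1 ≤ h := by exact_mod_cast hk
      intro h0; linarith
    have a2 : 2*((h:ℚ)-k-1)+1 ≠ 0 := by
      have : (k:ℚ) + 1 ≤ h := by exact_mod_cast hk
      intro h0; linarith
    have a2' : 2*((h:ℚ)-k)-1 ≠ 0 := by intro h0; apply a2; linarith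
    have e2 : Qd.tt (k+1) = Qd.tt k * ((2*(k:ℚ)+1)/(2*((k:ℚ)+1)))^2 := by unfold Qd.tt; rw [prod_range_succ]
    have e3 : UU p 1 (k+1) = UU p 1 k * (1 - 1*p/(2*(k:ℚ)+1)) := by unfold UU; rw [prod_range_succ]
    have e5 : PR p (1/2) 0 (k+1) = PR p (1/2) 0 k * (1 - 1/2*p/(((0:ℕ):ℚ)+k+1)) := by unfold PR; rw [prod_range_succ]
    have e6 : Qd.tt (h-(k+1)) = Qd.tt (h-k) * ((2*((h:ℚ)-k))/(2*((h:ℚ)-k)-1))^2 := by
      rw [e1]
      have : (h:ℚ)-k-1+1 ≠ 0 := by intro h0; apply a1; linarith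
      have a3 : 2*((h:ℚ)-k-1)+1 = 2*((h:ℚ)-k)-1 := by ring
      have a4 : 2*((h:ℚ)-k-1+1) = 2*((h:ℚ)-k) := by ring
      rw [a3, a4]
      field_simp
    rw [e6, ih, e2, e3, e5, hpq]
    have b1 : 2*(k:ℚ)+1 ≠ 0 := by positivity
    have b2 : (k:ℚ)+1 ≠ 0 := by positivity
    have c1 : 1 - 1*(2*(h:ℚ)+1)/(2*(k:ℚ)+1) = -(2*((h:ℚ)-k))/(2*k+1) := by field_simp; ring
    have c2 : 1 - 1/2*(2*(h:ℚ)+1)/(((0:ℕ):ℚ)+k+1) = -(2*((h:ℚ)-k)-1)/(2*(k+1)) := by
      push_cast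
      rw [zero_add]
      field_simp
      ring
    rw [c1, c2]
    by_cases hz : PR p (1/2) 0 k = 0
    · rw [hz]; simp
    · field_simp

theorem tth_eq {h : ℕ} (hh : p = 2*h+1) (p3 : 3 < p) : Qd.tt h = PR p (1/2) 0 h ^ 2 := by
  have h1 := tt_rev (p := p) hh h le_rfl
  have h2 := pb_eq (p := p) hh h le_rfl
  rw [Nat.choose_self] at h2
  have h3 : Qd.tt (h-h) = 1 := by simp [Qd.tt]
  rw [h3] at h1
  have L := PR_LR (p := p) (half_int' p3) (m := 0) (k := h) (by omega)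
  have hn := L.unit.1
  field_simp at h1
  push_cast at h2
  linear_combination (-1:ℚ)*h1 + Qd.tt h * h2

theorem tth_LR {h : ℕ} (hh : p = 2*h+1) (p3 : 3 < p) : LR p (Qd.tt h) (-(Hs 1 h)) := by
  rw [tth_eq hh p3]
  have L := (PR_LR (p := p) (half_int' p3) (m := 0) (k := h) (by omega)).sq
  refine LR_congr L (Dv_eq ?_ (Dv.zero (p := p) 1))
  rw [zero_add, Hs_zero]; ring

theorem oh_int {h : ℕ} (hh : p = 2*h+1) {k : ℕ} (hk : k ≤ h) : Dv p 0 (Oh k) := by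
  have := (UU_LR (p := p) Dv.one.neg hh hk).2
  refine Dv_eq ?_ this
  ring

/-- `tt_{h-k} ≡ tt_h (C(h,k)^2 + p H_k tt_k)` -/
theorem rev_c1 {h : ℕ} (hh : p = 2*h+1) (p3 : 3 < p) {k : ℕ} (hk : k ≤ h) :
    Dv p 2 (Qd.tt (h-k) - Qd.tt h * (pbf h k + p * Hs 1 k * Qd.tt k)) := by
  have h2 : p ≠ 2 := by omega
  rw [tt_rev hh k hk]
  unfold pbf
  rw [pb_eq hh k hk]
  have L1 := (PR_LR (p := p) (half_int' p3) (m := 0) (k := k) (by omega)).sq.inv
  have L2 := (UU_LR (p := p) Dv.one hh hk).sq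
  rw [zero_add, Hs_zero] at L1
  have i1 : Dv p 0 (Hs 1 k) := Hs_int (by omega)
  have t1 := tt_int (p := p) h2 k
  have t2 := tt_int (p := p) h2 h
  have d1 := ((L1.1.mul0 L2.int).mul0 t1).mul0 t2
  have d2 := (((Dv.p1 (p := p)).mul L2.one1).mul0 (i1.mul0 t1)).mul0 t2
  refine Dv_eq ?_ (d1.add d2)
  ring

/-- `tt_{h-k} ≡ tt_h tt_k (1 + p (H_k - 2 O_k))` -/
theorem rev_c2 {h : ℕ} (hh : p = 2*h+1) (p3 : 3 < p) {k : ℕ} (hk : k ≤ h) :
    Dv p 2 (Qd.tt (h-k) - Qd.tt h * (Qd.tt k * (1 + p * (Hs 1 k - 2 * Oh k)))) := by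
  have h2 : p ≠ 2 := by omega
  rw [tt_rev hh k hk]
  have L1 := (PR_LR (p := p) (half_int' p3) (m := 0) (k := k) (by omega)).sq.inv
  have L2 := (UU_LR (p := p) Dv.one hh hk).sq
  have L := L2.mul L1
  have t1 := tt_int (p := p) h2 k
  have t2 := tt_int (p := p) h2 h
  refine Dv_eq ?_ ((L.1.mul0 t1).mul0 t2)
  rw [zero_add, Hs_zero]
  ring

theorem leg_np {h : ℕ} (hh : p = 2*h+1) (k : ℕ) : leg (h+p) k = Qd.tt k * UU p 3 k * UU p (-3) k := by
  rw [leg_prod]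
  unfold Qd.tt UU
  rw [← prod_mul_distrib, ← prod_mul_distrib]
  refine prod_congr rfl fun j _ => ?_
  have hpq : (p:ℚ) = 2*h+1 := by rw [hh]; push_cast; ring
  push_cast
  rw [hpq]
  have h3 : 2*(j:ℚ)+1 ≠ 0 := by positivity
  have h5 : (j:ℚ)+1 ≠ 0 := by positivity
  field_simp
  ring

theorem leg_low (p3 : 3 < p) {h : ℕ} (hh : p = 2*h+1) {k : ℕ} (hk : k ≤ h) : Dv p 2 (leg (h+p) k - Qd.tt k) := by
  rw [leg_np hh]
  have c3 : Dv p 0 (3:ℚ) := by have := Dv.nat (p := p) 3; push_cast at this; exact this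
  have L := (UU_LR (p := p) c3 hh hk).mul (UU_LR (p := p) c3.neg hh hk)
  refine Dv_eq ?_ (L.1.mul0 (tt_int (by omega) k))
  ring

theorem leg_mid (p3 : 3 < p) {h : ℕ} (hh : p = 2*h+1) {k : ℕ} (hk : h < k) (hkp : k < p) : Dv p 2 (leg (h+p) k) := by
  rw [leg_np hh]
  have i3 : Dv p 0 (UU p 3 k) := prod_int _ _ fun j hj => by
    have := fac_int (p := p) hh 3 (j := j) (by rw [mem_range] at hj; omega)
    push_cast at this; exact this
  have i2 : Dv p 0 (UU p (-3) k) := prod_int _ _ fun j hj => by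
    have := fac_int (p := p) hh (-3) (j := j) (by rw [mem_range] at hj; omega)
    push_cast at this; exact this
  exact ((tt_van (by omega) hh hk hkp).mul0 i3).mul0 i2

theorem leg_high {h : ℕ} (hh : p = 2*h+1) (i : ℕ) : leg (h+p) (p+i) = leg (h+p) p * (Qd.tt i * UU p 1 i * UU p (-5) i / PR p (-1) 0 i ^ 2) := by
  rw [leg_prod, leg_prod, prod_range_add]
  congr 1
  unfold Qd.tt UU PR
  rw [← prod_mul_distrib, ← prod_mul_distrib, ← prod_pow, ← prod_div_distrib]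
  refine prod_congr rfl fun j _ => ?_
  have hpq : (p:ℚ) = 2*h+1 := by rw [hh]; push_cast; ring
  push_cast
  rw [hpq]
  have h3 : 2*(j:ℚ)+1 ≠ 0 := by positivity
  have h5 : (j:ℚ)+1 ≠ 0 := by positivity
  have h5' : (0:ℚ)+j+1 ≠ 0 := by positivity
  have h6 : 2*(h:ℚ)+1+j+1 ≠ 0 := by positivity
  have e1 : 1 - (-1:ℚ)*(2*(h:ℚ)+1)/(0+j+1) = (2*h+1+j+1)/(j+1) := by rw [zero_add]; field_simp; ring
  rw [e1]
  field_simp
  ring

theorem leg_blk (p3 : 3 < p) {h : ℕ} (hh : p = 2*h+1) {i : ℕ} (hi : i ≤ h) (hK : Dv p 0 (leg (h+p) p)) :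
    Dv p 2 (leg (h+p) (p+i) - leg (h+p) p * (3 * Qd.tt i - 2 * (1/Qd.tt h * Qd.tt (h-i)))) := by
  rw [leg_high hh]
  have c5 : Dv p 0 (-5:ℚ) := by have := Dv.int (p := p) (-5); push_cast at this; exact this
  have c1 : Dv p 0 (-1:ℚ) := Dv.one.neg
  have c2 : Dv p 0 (2:ℚ) := by have := Dv.nat (p := p) 2; push_cast at this; exact this
  have L := ((UU_LR (p := p) Dv.one hh hi).mul (UU_LR (p := p) c5 hh hi)).div ((PR_LR (p := p) c1 (m := 0) (k := i) (by omega)).sq)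
  have T := tth_LR (p := p) hh p3
  have r := (rev_c2 (p := p) hh p3 hi).div_unit T.unit.2
  have t0 := T.unit.1
  have t1 := tt_int (p := p) (by omega) i
  refine Dv_eq ?_ (((L.1.mul0 t1).add (r.mul0 c2)).mul0 hK)
  rw [zero_add, Hs_zero]
  field_simp
  ring

theorem c2p (k : ℕ) : (((2*p+k).choose p : ℕ) : ℚ) * PR p (-1) 0 k = (((2*p).choose p : ℕ) : ℚ) * PR p (-2) 0 k := by
  induction k with
  | zero => simp [PR]
  | succ k ih =>
    have h1 := ch_top (2*p+k) p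
    have e5 : PR p (-1) 0 (k+1) = PR p (-1) 0 k * (1 - (-1)*p/(((0:ℕ):ℚ)+k+1)) := by unfold PR; rw [prod_range_succ]
    have e6 : PR p (-2) 0 (k+1) = PR p (-2) 0 k * (1 - (-2)*p/(((0:ℕ):ℚ)+k+1)) := by unfold PR; rw [prod_range_succ]
    rw [e5, e6, show 2*p+(k+1) = 2*p+k+1 by ring]
    push_cast at h1 ⊢
    have hk : (0:ℚ)+k+1 ≠ 0 := by positivity
    have hk2 : (p:ℚ)+k+1 ≠ 0 := by positivity
    have e7 : (((2*p+k+1).choose p : ℕ) : ℚ) = (2*(p:ℚ)+k+1) * (((2*p+k).choose p : ℕ) : ℚ) / ((p:ℚ)+k+1) := by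
      rw [eq_div_iff hk2]; linarith
    rw [e7]
    have e8 : 1 - (-1:ℚ)*p/(0+k+1) = (p+k+1)/(0+k+1) := by field_simp; ring
    have e9 : 1 - (-2:ℚ)*p/(0+k+1) = (2*p+k+1)/(0+k+1) := by field_simp; ring
    rw [e8, e9]
    field_simp
    linear_combination ih

theorem K2_eq (p3 : 3 < p) {h : ℕ} (hh : p = 2*h+1) : leg (h+p) p = -((((2*p).choose p : ℕ) : ℚ) * PR p (-2) 0 h) := by
  have h1 := c2p (p := p) h
  have L := PR_LR (p := p) (c := -1) Dv.one.neg (m := 0) (k := h) (by omega)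
  have e1 : (((p+h).choose h : ℕ) : ℚ) = PR p (-1) 0 h := by
    rw [chp_prod]
    unfold PR
    refine prod_congr rfl fun j _ => ?_
    push_cast
    ring
  unfold leg
  have e2 : (h+p).choose p = (p+h).choose h := by rw [← Nat.choose_symm_add, add_comm]
  have e3 : h+p+p = 2*p+h := by ring
  have hodd : (-1:ℚ)^p = -1 := by rw [hh, pow_succ, pow_mul]; simp
  rw [e2, e3, hodd, Nat.cast_mul, e1]
  linear_combination (-1:ℚ) * h1

theorem K2_N1 (p3 : 3 < p) {h : ℕ} (hh : p = 2*h+1) : N1 p (leg (h+p) p) (-2) (-4 * Hs 1 h) := by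
  rw [K2_eq p3 hh]
  have c2 : Dv p 0 (-2:ℚ) := by have := Dv.int (p := p) (-2); push_cast at this; exact this
  have L := PR_LR (p := p) c2 (m := 0) (k := h) (by omega)
  have h1 : N1 p (((2*p).choose p : ℕ) : ℚ) 2 0 := by
    refine ⟨?_, by have := Dv.int (p := p) 2; push_cast at this; exact this, Dv.zero _⟩
    refine Dv_eq ?_ (cpp (p := p))
    ring
  refine ((h1.mul (N1.ofLR L)).neg).congr rfl (by ring) ?_
  rw [zero_add, Hs_zero]; ring

theorem cp1 (k : ℕ) : (((p-1).choose k : ℕ) : ℚ) * (-1)^k = PR p 1 0 k := by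
  rw [pb_prod]
  unfold PR
  have : (-1:ℚ)^k = ∏ l ∈ range k, (-1:ℚ) := by rw [prod_const, card_range]
  rw [this, ← prod_mul_distrib]
  refine prod_congr rfl fun j _ => ?_
  rw [Nat.cast_sub hp.out.one_lt.le]
  push_cast
  have hk : (j:ℚ)+1 ≠ 0 := by positivity
  rw [zero_add]
  field_simp
  ring

theorem sixteen_LR {h : ℕ} (hh : p = 2*h+1) (p3 : 3 < p) : LR p (16^h) (-(Hs 1 h)) := by
  have T := tth_LR (p := p) hh p3
  have h1 := Qd.tt_eq h
  have e0 : p - 1 = 2*h := by omega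
  have h2 := cp1 (p := p) h
  rw [e0] at h2
  have L := (PR_LR (p := p) Dv.one (m := 0) (k := h) (by omega)).sq.div T
  have e : (16:ℚ)^h = PR p 1 0 h ^ 2 / Qd.tt h := by
    rw [eq_div_iff T.unit.1, h1, ← h2]
    have : (16:ℚ)^h ≠ 0 := by positivity
    have h3 : ((-1:ℚ)^h)^2 = 1 := by rw [← pow_mul, mul_comm, pow_mul]; norm_num
    field_simp
    linear_combination (-((((2*h).choose h : ℕ) : ℚ)^2)) * h3
  rw [e]
  refine LR_congr L (Dv_eq ?_ (Dv.zero (p := p) 1))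
  rw [zero_add, Hs_zero]; ring

theorem four_LR {h : ℕ} (hh : p = 2*h+1) (p3 : 3 < p) : LR p (4^h) (-(1/2) * Hs 1 h) := by
  have L := sixteen_LR (p := p) hh p3
  have F := Tri.fermat (p := p) (nd2 p3)
  have e0 : p - 1 = 2*h := by omega
  rw [e0] at F
  have e1 : ((2:ℕ):ℚ)^(2*h) = 4^h := by rw [pow_mul]; norm_num
  rw [e1] at F
  have e2 : (16:ℚ)^h = (4^h)^2 := by rw [← pow_mul, mul_comm, pow_mul]; norm_num
  rw [e2] at L
  have th := half_int' (p := p) p3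
  refine ⟨?_, th.neg.mul0 (Hs_int (by omega))⟩
  have := (L.1.sub (F.mul F)).mul0 th
  refine Dv_eq ?_ this
  ring

end

end Pool.Agent.N926.Qe
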