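import Pool.Agent.N926.Qe.C
import Pool.Agent.N926.Qd.K

/-! data for the odd case -/

set_option autoImplicit false
set_option linter.unusedVariables false
set_option linter.unusedSectionVars false
set_option linter.unusedSimpArgs false

namespace Pool.Agent.N926.Qe

open Finset Pool.Agent.N926.Sup2 Pool.Agent.N926.Sup Pool.Agent.N926.F54 Pool.Agent.N926.F37 Pool.Agent.N926.Tri Pool.Agent.N926.Fib Pool.Agent.N926.Qd

noncomputable section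

section
variable {p : ℕ} [hp : Fact p.Prime]

theorem sigma_odd (p3 : 3 < p) {i : ℕ} (hi : p = 6*i+1) (i1 : 1 ≤ i) (hodd : i % 2 = 1) {j : ℕ} (hj : 3*i = 2*j+1) :
    N1 p (Sx (fun k => k * Qd.tt k) (3*i+1) Qd.x1 - AA3 ((3*i:ℕ):ℚ) * nu * Sx Qd.tt (3*i+1) Qd.x1).re 0 (5*((((legendreSym p 2 : ℤ) : ℚ)*3^j)*CC i) + 19*((((legendreSym p 2 : ℤ) : ℚ)*3^j)/CC i)) ∧
    N1 p (Sx (fun k => k * Qd.tt k) (3*i+1) Qd.x1 - AA3 ((3*i:ℕ):ℚ) * nu * Sx Qd.tt (3*i+1) Qd.x1).im 0 (-3*((((legendreSym p 2 : ℤ) : ℚ)*3^j)*CC i) - 11*((((legendreSym p 2 : ℤ) : ℚ)*3^j)/CC i)) := by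
  obtain ⟨nI, nR, ⟨hU, hV⟩, hX, hY⟩ := first_odd p3 hi i1 hodd hj
  have D := mkData p3 hi i1
  have hcu := CC_unit (p := p) hi i1
  have hLm := LL_main (p := p) (by omega) (by omega) hi i1
  have hh : p = 2*(3*i)+1 := by omega
  have hs1 : ((-1:ℚ)^i) = -1 := Odd.neg_one_pow ⟨i/2, by omega⟩
  have hth := D.th
  rw [hs1] at hth
  have dp := Dv.p1 (p := p)
  have p0 : (p:ℚ) ≠ 0 := by exact_mod_cast hp.out.ne_zero
  have hM := theta_main p3 hi _ rfl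
  obtain ⟨hl, -⟩ := two_h (p := p) p3 hh
  set f := CC i with hf
  set x2 := Hs 1 (2*i)
  set x3 := Hs 1 (3*i)
  set l : ℚ := ((legendreSym p 2 : ℤ) : ℚ) with hld
  have ll : l^2 = 1 := by rcases hl with h | h <;> rw [hld, h] <;> norm_num
  have l0 : Dv p 0 l := Dv.int _
  have c2 : Dv p 0 (2:ℚ) := by have := Dv.nat (p := p) 2; push_cast at this; exact this
  have c3 : Dv p 0 (3:ℚ) := by have := Dv.nat (p := p) 3; push_cast at this; exact this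
  have f0 : f ≠ 0 := hcu.1
  have fi : Dv p 0 (1/f) := Dv.one.div_unit hcu.2
  have c3j : Dv p 0 ((3:ℚ)^j) := by
    have := Dv.nat (p := p) (3^j)
    push_cast at this; exact this
  have e1Z : E1 p (eE^(3*i)) ⟨-2*l, l⟩ := E1.mk' (Dv_eq (by ring) hU) hV (Dv_eq (by ring) (c2.mul0 l0).neg) l0
  have e1P : E1 p (eE^p) ⟨2,-1⟩ := E1.mk' hX (Dv_eq (by ring) hY) c2 Dv.one.neg
  have e1k : E1 p (AA3 (-2 * (((p+3*i).choose (3*i) : ℕ) : ℚ))) (AA3 (-2)) := E1.A D.K4.one1 D.K4.2.1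
  have e1h : E1 p (AA3 (1/2)) (AA3 (1/2)) := E1.const (Dr.A (half_int' p3))
  have hneg : ((-1:R3)^(3*i)) = -1 := Odd.neg_one_pow ⟨j, hj⟩
  have e1L : E1 p ((1-Qd.x1)^(3*i)) ⟨-7,4⟩ := by
    refine ((e1Z.mul e1Z).neg).cong ?_ ?_
    · rw [L_pow, hneg]; ring
    · ext
      · simp only [QuadraticAlgebra.re_neg, QuadraticAlgebra.re_mul]; linear_combination (-7:ℚ)*ll
      · simp only [QuadraticAlgebra.im_neg, QuadraticAlgebra.im_mul]; linear_combination (4:ℚ)*ll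
  have e1B : E1 p ((1-w1)^(3*i+p)) ⟨21*(l*3^j), -12*(l*3^j)⟩ := by
    have a1 : E1 p (AA3 (3^(3*i))) (AA3 (-1)) := E1.A (hth.one1) hth.2.1
    have a2 : E1 p (AA3 (3^j)) (AA3 (3^j)) := E1.const (Dr.A c3j)
    have a3 : E1 p (AA3 3) (AA3 3) := E1.const (Dr.A c3)
    refine (((a1.mul a2).mul a3).mul (e1Z.mul e1P)).cong ?_ ?_
    · rw [w_pow2 p (3*i) hh, hneg]
      have e : Qd.s3^(3*i) = AA3 (3^j) * Qd.s3 := by rw [hj]; exact s3_pow j
      rw [e]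
      have hs := ss3
      linear_combination (-(AA3 (3^(3*i))*AA3 (3^j)*(eE^(3*i)*eE^p))) * hs
    · ext
      · simp only [QuadraticAlgebra.re_mul, QuadraticAlgebra.im_mul, A3_re, A3_im]; ring
      · simp only [QuadraticAlgebra.re_mul, QuadraticAlgebra.im_mul, A3_re, A3_im]; ring
  set c : ℚ := l*3^j with hcd
  have c0 : Dv p 0 c := l0.mul0 c3j
  have e1S : E1 p (Sx Qd.tt (3*i+1) Qd.x1) ⟨-3*c*f, 2*c*f⟩ := E1.mk' nR.one1 nI.one1 nR.2.1 nI.2.1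
  have e1F : E1 p (AA3 (FF (3*i+p))) (AA3 f) := E1.A D.F1.one1 D.ff
  have hll : Dv p 1 (LL (3*i+p)/p - 1/f) := by
    refine Dv.of_p_mul (n := 1) ?_
    refine Dv_eq ?_ hLm
    rw [show 3*(3*i)+1 = 3*i+p by omega]
    field_simp
  have e1l : E1 p (AA3 (LL (3*i+p)/p)) (AA3 (1/f)) := E1.A hll fi
  have n_nu : E1 p nu nu := E1.const (nu_int p3)
  have e12 : E1 p (2:R3) (2:R3) := E1.const (by
    have := Dr.A (p := p) c2
    refine Dr_eq ?_ this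
    exact map_ofNat AA3 2)
  have e1r : E1 p (1 + w1*v1) (1+w1*v1) := E1.const (by
    have h1 : (1 + w1*v1 : R3) = nu - 1 := by rw [nu_r]; ring
    rw [h1]
    exact (nu_int p3).sub Dr.one)
  have e1u : E1 p u1 u1 := E1.const u1_int
  have e1κ := (e1k.mul e1P).mul e1h
  have hQ := (((n_nu.mul (e1B.mul e1F)).neg).add ((e12.mul e1r).mul (e1B.mul e1l))).add (e1κ.mul (e1S.add (e1L.mul e1S.cj)))
  have hQ' := hQ.cong rfl (show _ = (⟨-42*(c*f) + 90*(c/f), 24*(c*f) - 52*(c/f)⟩ : R3) by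
    have hr : (1 + w1*v1 : R3) = nu - 1 := by rw [nu_r]; ring
    have h2 : (2:R3) = AA3 2 := (map_ofNat AA3 2).symm
    rw [hr, h2]
    unfold nu
    ext
    · simp only [QuadraticAlgebra.re_add, QuadraticAlgebra.im_add, QuadraticAlgebra.re_neg, QuadraticAlgebra.im_neg, QuadraticAlgebra.re_sub, QuadraticAlgebra.im_sub, QuadraticAlgebra.re_mul, QuadraticAlgebra.im_mul, A3_re, A3_im, cj_re, cj_im, QuadraticAlgebra.re_one, QuadraticAlgebra.im_one]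
      ring
    · simp only [QuadraticAlgebra.re_add, QuadraticAlgebra.im_add, QuadraticAlgebra.re_neg, QuadraticAlgebra.im_neg, QuadraticAlgebra.re_sub, QuadraticAlgebra.im_sub, QuadraticAlgebra.re_mul, QuadraticAlgebra.im_mul, A3_re, A3_im, cj_re, cj_im, QuadraticAlgebra.re_one, QuadraticAlgebra.im_one]
      ring)
  have ha1 := (e12.sub e1κ).cong rfl (show _ = (⟨4,-1⟩ : R3) by
    have h2 : (2:R3) = AA3 2 := (map_ofNat AA3 2).symm
    rw [h2]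
    ext
    · simp only [QuadraticAlgebra.re_sub, QuadraticAlgebra.im_sub, QuadraticAlgebra.re_mul, QuadraticAlgebra.im_mul, A3_re, A3_im]
      ring
    · simp only [QuadraticAlgebra.re_sub, QuadraticAlgebra.im_sub, QuadraticAlgebra.re_mul, QuadraticAlgebra.im_mul, A3_re, A3_im]
      ring)
  have ha2 := ((e1κ.mul (e1L.mul e1u)).neg).cong rfl (show _ = (⟨362,-209⟩ : R3) by
    unfold u1
    ext
    · simp only [QuadraticAlgebra.re_neg, QuadraticAlgebra.im_neg, QuadraticAlgebra.re_mul, QuadraticAlgebra.im_mul, A3_re, A3_im]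
      ring
    · simp only [QuadraticAlgebra.re_neg, QuadraticAlgebra.im_neg, QuadraticAlgebra.re_mul, QuadraticAlgebra.im_mul, A3_re, A3_im]
      ring)
  have hσ0 : Dr p 0 (Sx (fun k => k * Qd.tt k) (3*i+1) Qd.x1 - AA3 ((3*i:ℕ):ℚ) * nu * Sx Qd.tt (3*i+1) Qd.x1) := by
    refine Dr.sub (Sx_dr _ _ _ _ x1_int fun k _ => ?_) (((Dr.A (Dv.nat _)).mul0 (nu_int p3)).mul0 (S_int p3 _))
    exact (Dv.nat k).mul0 (tt_int (by omega) k)
  generalize Sx (fun k => k * Qd.tt k) (3*i+1) Qd.x1 - AA3 ((3*i:ℕ):ℚ) * nu * Sx Qd.tt (3*i+1) Qd.x1 = σ at *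
  have hlp : AA3 (LL (3*i+p)) = AA3 p * AA3 (LL (3*i+p)/p) := by
    rw [← map_mul]; congr 1; field_simp
  rw [hlp] at hM
  set S := Sx Qd.tt (3*i+1) Qd.x1 with hS
  set L := (1-Qd.x1)^(3*i) with hLd
  set B := (1-w1)^(3*i+p) with hBd
  set κ := AA3 (-2 * (((p+3*i).choose (3*i) : ℕ) : ℚ)) * eE^p with hκ
  set Q := -(nu * (B * AA3 (FF (3*i+p)))) + 2 * (1 + w1*v1) * (B * AA3 (LL (3*i+p)/p)) + κ * AA3 (1/2) * (S + L * cj S) with hQd
  have h6 : Dr p 2 ((2 - κ * AA3 (1/2)) * σ + (-(κ * AA3 (1/2) * (L * u1))) * cj σ - AA3 p * Q) := by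
    refine Dr_eq ?_ hM
    rw [hQd]
    ring
  have dpr : Dr p 1 (AA3 (p:ℚ)) := Dr.A dp
  have step1 : Dr p 1 ((⟨4,-1⟩:R3) * σ + (⟨362,-209⟩:R3) * cj σ - 0) := by
    have h7 := (((h6.mono (show (1:ℤ) ≤ 2 by norm_num)).add (dpr.mul0 hQ'.int)).sub (ha1.1.mul0 hσ0)).sub (ha2.1.mul0 hσ0.cj)
    refine Dr_eq ?_ h7
    ring
  have s1 := sys_solve p3 step1
  have hσ1 : Dr p 1 σ := by
    refine ⟨Dv_div12 p3 (Dv_eq ?_ s1.1), Dv_div12 p3 (Dv_eq ?_ s1.2)⟩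
    · simp
    · simp
  have step2 : Dr p 2 ((⟨4,-1⟩:R3) * σ + (⟨362,-209⟩:R3) * cj σ - AA3 p * (⟨-42*(c*f) + 90*(c/f), 24*(c*f) - 52*(c/f)⟩ : R3)) := by
    have h7 := ((h6.add (dpr.mul hQ'.1)).sub (ha1.1.mul hσ1)).sub (ha2.1.mul hσ1.cj)
    refine Dr_eq ?_ h7
    ring
  have s2 := sys_solve p3 step2
  have cf0 : Dv p 0 (c*f) := c0.mul0 D.ff
  have cif0 : Dv p 0 (c/f) := Dv_eq (by ring) (c0.mul0 fi)
  constructor
  · refine ⟨Dv_div12 p3 (Dv_eq ?_ s2.1), Dv.zero _, ?_⟩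
    · simp only [QuadraticAlgebra.re_mul, QuadraticAlgebra.im_mul, A3_re, A3_im]
      ring
    · refine Dv_eq ?_ ((cf0.mul0 (Dv.int (p := p) 5)).add (cif0.mul0 (Dv.int (p := p) 19)))
      push_cast; ring
  · refine ⟨Dv_div12 p3 (Dv_eq ?_ s2.2), Dv.zero _, ?_⟩
    · simp only [QuadraticAlgebra.re_mul, QuadraticAlgebra.im_mul, A3_re, A3_im]
      ring
    · refine Dv_eq ?_ ((cf0.mul0 (Dv.int (p := p) (-3))).sub (cif0.mul0 (Dv.int (p := p) 11)))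
      push_cast; ring

theorem leg2_sign (p3 : 3 < p) {j : ℕ} (hj : p = 4*j+3) : ((legendreSym p 2 : ℤ) : ℚ) = (-1)^(j+1) := by
  rw [legendreSym.at_two (by omega), ZMod.χ₈_nat_eq_if_mod_eight]
  have h2 : ¬ p % 2 = 0 := by omega
  rcases Nat.even_or_odd j with ⟨a, ha⟩ | ⟨a, ha⟩
  · have h8 : p % 8 = 3 := by omega
    have e : (-1:ℚ)^(j+1) = -1 := Odd.neg_one_pow ⟨a, by omega⟩
    rw [e]; simp [h2, h8]
  · have h8 : p % 8 = 7 := by omega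
    have e : (-1:ℚ)^(j+1) = 1 := Even.neg_one_pow ⟨a+1, by omega⟩
    rw [e]; simp [h2, h8]

/-- `l β ≡ 4y - p/(3y)` and `l c / f ≡ -1/(6y)` -/
theorem odd_pack (p3 : 3 < p) {i : ℕ} (hi : p = 6*i+1) (i1 : 1 ≤ i) (hodd : i % 2 = 1) {j : ℕ} (hj : 3*i = 2*j+1)
    {x y : ℤ} (h : x^2 + 3*y^2 = p) (hx : x % 3 = 1) (hy : y % 4 = 1) :
    Dv p 2 (((legendreSym p 2 : ℤ) : ℚ) * (Sx Qd.tt (3*i+1) Qd.x1).im - (4*(y:ℚ) - p/(3*(y:ℚ)))) ∧
    Dv p 1 (((legendreSym p 2 : ℤ) : ℚ) * ((((legendreSym p 2 : ℤ) : ℚ)*3^j)/CC i) + 1/(6*(y:ℚ))) := by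
  have nI := (first_odd p3 hi i1 hodd hj).1
  have D := mkData p3 hi i1
  have hcu := CC_unit (p := p) hi i1
  have ha := (part_a p3 hi i1 hodd hj h hx hy).1
  have hls := leg2_sign (p := p) p3 (j := j) (by omega)
  have hs1 : ((-1:ℚ)^i) = -1 := Odd.neg_one_pow ⟨i/2, by omega⟩
  have hth := D.th
  rw [hs1] at hth
  have dp := Dv.p1 (p := p)
  have p0 : (p:ℚ) ≠ 0 := by exact_mod_cast hp.out.ne_zero
  have hh : p = 2*(3*i)+1 := by omega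
  obtain ⟨hl, -⟩ := two_h (p := p) p3 hh
  have c3j : Dv p 0 ((3:ℚ)^j) := by
    have := Dv.nat (p := p) (3^j)
    push_cast at this; exact this
  have y0 : y ≠ 0 := by rintro rfl; norm_num at hy
  have hyu := y_unit' p3 h y0
  have yq : (y:ℚ) ≠ 0 := by exact_mod_cast y0
  have yi : Dv p 0 (1/(y:ℚ)) := Dv.one.div_unit (unit_int hyu)
  have fi : Dv p 0 (1/CC i) := Dv.one.div_unit hcu.2
  have fq := hcu.1
  set l : ℚ := ((legendreSym p 2 : ℤ) : ℚ) with hld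
  have ll : l^2 = 1 := by rcases hl with h | h <;> rw [hld, h] <;> norm_num
  have l0 : Dv p 0 l := Dv.int _
  rw [← hls] at ha
  have c2 : Dv p 0 (2:ℚ) := by have := Dv.nat (p := p) 2; push_cast at this; exact this
  have c3 : Dv p 0 (3:ℚ) := by have := Dv.nat (p := p) 3; push_cast at this; exact this
  have t3 := third_int (p := p) p3
  have th := half_int' (p := p) p3
  have c0 : Dv p 0 (l*3^j) := l0.mul0 c3j
  have A1 : Dv p 2 (l * (Sx Qd.tt (3*i+1) Qd.x1).im - (4*(y:ℚ) - p/(3*(y:ℚ)))) := by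
    refine Dv_eq ?_ (ha.mul0 l0)
    linear_combination (-(4*(y:ℚ) - p/(3*(y:ℚ))))*ll
  refine ⟨A1, ?_⟩
  have hC1 : Dv p 1 (3*(l*3^j)^2 + 1) := by
    have e3 : (3:ℚ)^(3*i) = 3*(3^j)^2 := by rw [hj, pow_succ, mul_comm 2 j, pow_mul]; ring
    refine Dv_eq ?_ (hth.one1)
    rw [e3]
    linear_combination (-3*(3^j)^2 : ℚ)*ll
  -- `l c f ≡ 2 y`
  have B1 : Dv p 1 (l*(l*3^j)*CC i - 2*(y:ℚ)) := by
    have a1 := nI.one1.mul0 l0
    have a2 := A1.mono (show (1:ℤ) ≤ 2 by norm_num)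
    have a3 : Dv p 1 ((p:ℚ)/(3*(y:ℚ))) := by
      refine Dv_eq ?_ (dp.mul0 (yi.mul0 t3))
      field_simp
    refine Dv_div2 p3 (Dv_eq ?_ ((a2.sub a1).sub a3))
    ring
  set c : ℚ := l*3^j with hcd
  have B2 : Dv p 1 (6*(y:ℚ)*(l*c) + CC i) := by
    have b1 : Dv p 1 (6*(y:ℚ)*c^2 + l*c*CC i) := by
      refine Dv_eq ?_ ((B1).add ((hC1.mul0 (Dv.int (p := p) y)).mul0 c2))
      ring
    have b2 := b1.mul0 ((c3.mul0 (l0.mul0 c0)).neg)
    have b3 := hC1.mul0 ((((Dv.int (p := p) 6).mul0 (Dv.int (p := p) y)).mul0 (l0.mul0 c0)).add D.ff)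
    refine Dv_eq ?_ (b2.add b3)
    push_cast
    linear_combination (-3*c^2*CC i)*ll
  have hs := B2.mul0 (((th.mul0 t3).mul0 yi).mul0 fi)
  refine Dv_eq ?_ hs
  field_simp
  ring

end

end

end Pool.Agent.N926.Qe
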