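import Pool.Agent.N926.Qe.D

/-! the sums at `(2+√3)/4` -/

set_option autoImplicit false
set_option linter.unusedVariables false
set_option linter.unusedSectionVars false

namespace Pool.Agent.N926.Qe

open Finset Pool.Agent.N926.Sup2 Pool.Agent.N926.Sup Pool.Agent.N926.F54 Pool.Agent.N926.F37 Pool.Agent.N926.Tri Pool.Agent.N926.Fib Pool.Agent.N926.Qd

noncomputable section

section
variable {p : ℕ} [hp : Fact p.Prime]

theorem leg_h (h2 : p ≠ 2) {h : ℕ} (hh : p = 2*h+1) {k : ℕ} (hk : k ≤ h) : Dv p 2 (leg h k - Qd.tt k) := pa_cong h2 hh hk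

theorem symA (h2 : p ≠ 2) {h : ℕ} (hh : p = 2*h+1) (x : R3) (hx : Dr p 0 x) :
    Dr p 2 (Sx Qd.tt (h+1) x - (-1)^h * Sx Qd.tt (h+1) (1-x)) := by
  have h1 := leg0 AA3 h x
  have hx' : Dr p 0 (1-x) := Dr.one.sub hx
  have a1 : Dr p 2 (Sx (fun k => leg h k - Qd.tt k) (h+1) x) := Sx_dr _ _ _ _ hx fun k hk => leg_h h2 hh (by omega)
  have a2 : Dr p 2 (Sx (fun k => leg h k - Qd.tt k) (h+1) (1-x)) := Sx_dr _ _ _ _ hx' fun k hk => leg_h h2 hh (by omega)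
  rw [← Sx_sub] at a1 a2
  have hε : Dr p 0 ((-1:R3)^h) := ((Dr.one (p := p)).neg).pow h
  refine Dr_eq ?_ ((a2.mul0 hε).sub a1)
  change Sx (leg h) (h+1) x = (-1)^h * Sx (leg h) (h+1) (1-x) at h1
  linear_combination (-1:R3) * h1

theorem symB (h2 : p ≠ 2) {h : ℕ} (hh : p = 2*h+1) (x : R3) (hx : Dr p 0 x) :
    Dr p 2 ((1-x) * Sx (fun k => k * Qd.tt k) (h+1) x + (-1)^h * (x * Sx (fun k => k * Qd.tt k) (h+1) (1-x))) := by
  have h1 := leg1 AA3 h x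
  have hx' : Dr p 0 (1-x) := Dr.one.sub hx
  have a1 : Dr p 2 (Sx (fun k => k * leg h k - k * Qd.tt k) (h+1) x) := Sx_dr _ _ _ _ hx fun k hk => by
    refine Dv_eq ?_ ((leg_h h2 hh (show k ≤ h by omega)).mul0 (Dv.nat k))
    ring
  have a2 : Dr p 2 (Sx (fun k => k * leg h k - k * Qd.tt k) (h+1) (1-x)) := Sx_dr _ _ _ _ hx' fun k hk => by
    refine Dv_eq ?_ ((leg_h h2 hh (show k ≤ h by omega)).mul0 (Dv.nat k))
    ring
  rw [← Sx_sub] at a1 a2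
  have hε : Dr p 0 ((-1:R3)^h) := ((Dr.one (p := p)).neg).pow h
  refine Dr_eq ?_ (((a2.mul0 (hε.mul0 hx)).add (a1.mul0 hx')).neg)
  change (1-x) * Sx (fun k => k * leg h k) (h+1) x = -((-1)^h * (x * Sx (fun k => k * leg h k) (h+1) (1-x))) at h1
  linear_combination (-1:R3) * h1

theorem blk (p3 : 3 < p) {h : ℕ} (hh : p = 2*h+1) (hK : Dv p 0 (leg (h+p) p)) (W : ℕ → ℚ) (hW : ∀ n, Dv p 0 (W n)) (x : R3) (hx : Dr p 0 x) :
    Dr p 2 (Sx (fun n => W n * leg (h+p) n) (h+p+1) x - Sx (fun n => W n * Qd.tt n) (h+1) x -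
      AA3 (leg (h+p) p) * x^p * Sx (fun i => W (p+i) * (3 * Qd.tt i - 2 * (1/Qd.tt h * Qd.tt (h-i)))) (h+1) x) := by
  have e1 : Sx (fun n => W n * leg (h+p) n) (h+p+1) x = Sx (fun n => W n * leg (h+p) n) (h+1) x +
      ∑ i ∈ range h, AA3 (W (h+1+i) * leg (h+p) (h+1+i)) * x^(h+1+i) +
      ∑ i ∈ range (h+1), AA3 (W (p+i) * leg (h+p) (p+i)) * x^(p+i) := by
    unfold Sx
    have hr : range (h+p+1) = range (p+(h+1)) := by congr 1; ring
    have hr2 : range p = range ((h+1)+h) := by congr 1; omega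
    rw [hr, sum_range_add, hr2, sum_range_add]
  have e2 : AA3 (leg (h+p) p) * x^p * Sx (fun i => W (p+i) * (3 * Qd.tt i - 2 * (1/Qd.tt h * Qd.tt (h-i)))) (h+1) x =
      ∑ i ∈ range (h+1), AA3 (W (p+i) * (leg (h+p) p * (3 * Qd.tt i - 2 * (1/Qd.tt h * Qd.tt (h-i))))) * x^(p+i) := by
    unfold Sx
    rw [mul_sum]
    refine sum_congr rfl fun i _ => ?_
    rw [pow_add, map_mul, map_mul, map_mul]
    ring
  have h1 : Dr p 2 (Sx (fun n => W n * leg (h+p) n - W n * Qd.tt n) (h+1) x) :=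
    Sx_dr _ _ _ _ hx fun k hk => by
      have := (leg_low p3 hh (show k ≤ h by omega)).mul0 (hW k)
      refine Dv_eq ?_ this
      ring
  rw [← Sx_sub] at h1
  have h2 : Dr p 2 (∑ i ∈ range h, AA3 (W (h+1+i) * leg (h+p) (h+1+i)) * x^(h+1+i)) := Dr.sum _ _ fun i hi => by
    rw [mem_range] at hi
    refine (Dr.A ?_).mul0 (hx.pow _)
    have := (leg_mid p3 hh (show h < h+1+i by omega) (show h+1+i < p by omega)).mul0 (hW (h+1+i))
    refine Dv_eq ?_ this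
    ring
  have h3 : Dr p 2 (∑ i ∈ range (h+1), AA3 (W (p+i) * (leg (h+p) (p+i) - leg (h+p) p * (3 * Qd.tt i - 2 * (1/Qd.tt h * Qd.tt (h-i))))) * x^(p+i)) := Dr.sum _ _ fun i hi => by
    rw [mem_range] at hi
    refine (Dr.A ?_).mul0 (hx.pow _)
    have := (leg_blk p3 hh (show i ≤ h by omega) hK).mul0 (hW (p+i))
    refine Dv_eq ?_ this
    ring
  have e4 : ∑ i ∈ range (h+1), AA3 (W (p+i) * (leg (h+p) (p+i) - leg (h+p) p * (3 * Qd.tt i - 2 * (1/Qd.tt h * Qd.tt (h-i))))) * x^(p+i) =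
      ∑ i ∈ range (h+1), AA3 (W (p+i) * leg (h+p) (p+i)) * x^(p+i) - ∑ i ∈ range (h+1), AA3 (W (p+i) * (leg (h+p) p * (3 * Qd.tt i - 2 * (1/Qd.tt h * Qd.tt (h-i))))) * x^(p+i) := by
    rw [← sum_sub_distrib]
    refine sum_congr rfl fun i _ => ?_
    rw [mul_sub, map_sub]
    ring
  rw [e4] at h3
  refine Dr_eq ?_ ((h1.add h2).add h3)
  rw [e1, e2]
  ring

end

def z1 : R3 := ⟨1/2, 1/4⟩

theorem z1_e : z1 = AA3 (1/4) * eE := by
  unfold z1 eE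
  ext
  · simp only [QuadraticAlgebra.re_mul, A3_re, A3_im]; norm_num
  · simp only [QuadraticAlgebra.im_mul, A3_re, A3_im]; norm_num
theorem z1_c : 1 - z1 = cj z1 := by
  unfold z1
  ext
  · simp only [QuadraticAlgebra.re_sub, QuadraticAlgebra.re_one, cj_re]; norm_num
  · simp only [QuadraticAlgebra.im_sub, QuadraticAlgebra.im_one, cj_im]; norm_num
theorem z1_x : z1 * cj Qd.x1 = 1 := by
  unfold z1 Qd.x1
  ext
  · simp only [QuadraticAlgebra.re_mul, QuadraticAlgebra.re_one, cj_re, cj_im]; norm_num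
  · simp only [QuadraticAlgebra.im_mul, QuadraticAlgebra.im_one, cj_re, cj_im]; norm_num
theorem z1_n : z1 * cj z1 = AA3 (1/16) := by
  unfold z1
  ext
  · simp only [QuadraticAlgebra.re_mul, cj_re, cj_im, A3_re]; norm_num
  · simp only [QuadraticAlgebra.im_mul, cj_re, cj_im, A3_im]; norm_num

section
variable {p : ℕ} [hp : Fact p.Prime]

theorem z1_int (p3 : 3 < p) : Dr p 0 z1 := by
  have th := half_int' (p := p) p3
  refine ⟨th, ?_⟩
  show Dv p 0 (1/4:ℚ)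
  exact Dv_eq (by norm_num) (th.mul0 th)

/-- reversal at `z1` -/
theorem revS {h : ℕ} : Sx (fun k => Qd.tt (h-k)) (h+1) z1 = z1^h * cj (Sx Qd.tt (h+1) Qd.x1) := by
  rw [Sx_cj]
  exact rev0 AA3 z1 (cj Qd.x1) z1_x h Qd.tt

theorem revT {h : ℕ} : Sx (fun k => k * Qd.tt (h-k)) (h+1) z1 = z1^h * (AA3 h * cj (Sx Qd.tt (h+1) Qd.x1) - cj (Sx (fun k => k * Qd.tt k) (h+1) Qd.x1)) := by
  rw [Sx_cj, Sx_cj]
  exact rev1 AA3 z1 (cj Qd.x1) z1_x h Qd.tt

/-- block of the unweighted sum -/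
theorem blkS {h : ℕ} (x : R3) : Sx (fun i => (1:ℚ) * (3 * Qd.tt i - 2 * (1/Qd.tt h * Qd.tt (h-i)))) (h+1) x =
    3 * Sx Qd.tt (h+1) x - 2 * (AA3 (1/Qd.tt h) * Sx (fun k => Qd.tt (h-k)) (h+1) x) := by
  unfold Sx
  rw [mul_sum, mul_sum, mul_sum, ← sum_sub_distrib]
  refine sum_congr rfl fun k _ => ?_
  have a2 : (2:R3) = AA3 2 := (map_ofNat AA3 2).symm
  have a3 : (3:R3) = AA3 3 := (map_ofNat AA3 3).symm
  beta_reduce
  rw [a2, a3, one_mul, map_sub, map_mul, map_mul, map_mul]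
  ring

theorem blkT {h : ℕ} (x : R3) : Sx (fun i => ((p+i:ℕ):ℚ) * (3 * Qd.tt i - 2 * (1/Qd.tt h * Qd.tt (h-i)))) (h+1) x =
    AA3 p * (3 * Sx Qd.tt (h+1) x - 2 * (AA3 (1/Qd.tt h) * Sx (fun k => Qd.tt (h-k)) (h+1) x)) +
    (3 * Sx (fun k => k * Qd.tt k) (h+1) x - 2 * (AA3 (1/Qd.tt h) * Sx (fun k => k * Qd.tt (h-k)) (h+1) x)) := by
  unfold Sx
  rw [mul_sum, mul_sum, mul_sum, ← sum_sub_distrib, mul_sum, mul_sum, mul_sum, mul_sum, ← sum_sub_distrib, ← sum_add_distrib]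
  refine sum_congr rfl fun k _ => ?_
  have a2 : (2:R3) = AA3 2 := (map_ofNat AA3 2).symm
  have a3 : (3:R3) = AA3 3 := (map_ofNat AA3 3).symm
  beta_reduce
  rw [a2, a3, Nat.cast_add, map_mul, map_add, map_sub, map_mul, map_mul, map_mul, map_mul, map_mul]
  ring

/-- the real equation for `S(z1)` (odd case) -/
theorem eqS (p3 : 3 < p) {h : ℕ} (hh : p = 2*h+1) (hodd : h % 2 = 1) :
    Dv p 2 (Sx Qd.tt (h+1) z1).re ∧
    Dv p 2 ((1 + 3 * leg (h+p) p * (z1^p).re) * (Sx Qd.tt (h+1) z1).im -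
      2 * leg (h+p) p * (z1^p * (AA3 (1/Qd.tt h) * (z1^h * cj (Sx Qd.tt (h+1) Qd.x1)))).im) := by
  have h2 : p ≠ 2 := by omega
  have zi := z1_int (p := p) p3
  have hneg : ((-1:R3)^h) = -1 := Odd.neg_one_pow ⟨h/2, by omega⟩
  have hnn : ((-1:R3)^(h+p)) = 1 := Even.neg_one_pow ⟨(h+p)/2, by omega⟩
  have H1 := symA h2 hh z1 zi
  rw [hneg, z1_c, ← Sx_cj] at H1
  have K0 := (K2_N1 (p := p) p3 hh).int
  have H3 := blk p3 hh K0 (fun _ => 1) (fun _ => Dv.one) z1 zi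
  simp only [one_mul] at H3
  have hb := blkS (h := h) z1
  simp only [one_mul] at hb
  rw [hb, revS] at H3
  have H2 : Sx (leg (h+p)) (h+p+1) z1 = (-1)^(h+p) * Sx (leg (h+p)) (h+p+1) (1-z1) := leg0 AA3 (h+p) z1
  rw [hnn, one_mul, z1_c, ← Sx_cj] at H2
  have H2' : (Sx (leg (h+p)) (h+p+1) z1).im = 0 := by
    have := congrArg QuadraticAlgebra.im H2
    rw [cj_im] at this
    linarith
  have hre : Dv p 2 (Sx Qd.tt (h+1) z1).re := by
    refine Dv_div2 p3 (Dv_eq ?_ H1.1)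
    simp only [QuadraticAlgebra.re_sub, QuadraticAlgebra.re_mul, QuadraticAlgebra.re_neg, QuadraticAlgebra.im_neg, QuadraticAlgebra.re_one, QuadraticAlgebra.im_one, cj_re, cj_im]
    ring
  refine ⟨hre, ?_⟩
  have pint := (zi.pow p).2
  have e3 : (3:R3) = AA3 3 := (map_ofNat AA3 3).symm
  have e2 : (2:R3) = AA3 2 := (map_ofNat AA3 2).symm
  rw [e3, e2] at H3
  have c3 : Dv p 0 (3:ℚ) := by have := Dv.nat (p := p) 3; push_cast at this; exact this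
  refine Dv_eq ?_ ((H3.2.add (((hre.mul0 pint).mul0 K0).mul0 c3)).neg)
  simp only [QuadraticAlgebra.im_sub, QuadraticAlgebra.re_sub, QuadraticAlgebra.im_mul, QuadraticAlgebra.re_mul, A3_re, A3_im, H2']
  ring

end

end

end Pool.Agent.N926.Qe
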