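import Pool.Agent.N926.Qe.E

/-! evaluation of the sums at `(2+√3)/4`, odd case -/

set_option autoImplicit false
set_option linter.unusedVariables false
set_option linter.unusedSectionVars false
set_option linter.unusedSimpArgs false

namespace Pool.Agent.N926.Qe

open Finset Pool.Agent.N926.Sup2 Pool.Agent.N926.Sup Pool.Agent.N926.F54 Pool.Agent.N926.F37 Pool.Agent.N926.Tri Pool.Agent.N926.Fib Pool.Agent.N926.Qd

noncomputable section

theorem z1_pow (n : ℕ) : z1^n = AA3 ((1/4)^n) * eE^n := by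
  rw [z1_e, mul_pow, map_pow]

section
variable {p : ℕ} [hp : Fact p.Prime]

theorem N1.pmul {z a b : ℚ} (h : N1 p z a b) : N1 p (p*z) 0 a := by
  refine ⟨?_, Dv.zero _, h.2.1⟩
  have := (Dv.p1 (p := p)).mul h.one1
  refine Dv_eq ?_ this
  ring

theorem quarter_LR {h : ℕ} (hh : p = 2*h+1) (p3 : 3 < p) : LR p ((1/4:ℚ)^h) ((1/2) * Hs 1 h) := by
  have L := (four_LR (p := p) hh p3).inv
  have e : (1/4:ℚ)^h = (4^h)⁻¹ := by rw [one_div, inv_pow]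
  rw [e]
  refine LR_congr L (Dv_eq ?_ (Dv.zero (p := p) 1))
  ring

/-- the real equation for `T(z1)` (odd case) -/
theorem eqT (p3 : 3 < p) {h : ℕ} (hh : p = 2*h+1) (hodd : h % 2 = 1) : ∃ τ : ℚ, Dv p 0 τ ∧
    Dr p 2 (Sx (fun k => k * Qd.tt k) (h+1) z1 - AA3 τ * z1) ∧
    Dv p 2 ((1 + 3 * leg (h+p) p * (z1^p).re) * τ + leg (h+p) p *
      (z1^(2*h) * (AA3 p * (AA3 3 * Sx Qd.tt (h+1) z1 - AA3 2 * (AA3 (1/Qd.tt h) * (z1^h * cj (Sx Qd.tt (h+1) Qd.x1)))) -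
        AA3 2 * (AA3 (1/Qd.tt h) * (z1^h * (AA3 h * cj (Sx Qd.tt (h+1) Qd.x1) - cj (Sx (fun k => k * Qd.tt k) (h+1) Qd.x1)))))).re) := by
  have h2 : p ≠ 2 := by omega
  have zi := z1_int (p := p) p3
  have hneg : ((-1:R3)^h) = -1 := Odd.neg_one_pow ⟨h/2, by omega⟩
  have hnn : ((-1:R3)^(h+p)) = 1 := Even.neg_one_pow ⟨(h+p)/2, by omega⟩
  have H1 := symB h2 hh z1 zi
  rw [hneg, z1_c, ← Sx_cj] at H1
  have K0 := (K2_N1 (p := p) p3 hh).int
  have H3 := blk p3 hh K0 (fun n => (n:ℚ)) (fun n => Dv.nat n) z1 zi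
  rw [blkT, revS, revT] at H3
  have H2 : (1-z1) * Sx (fun k => k * leg (h+p) k) (h+p+1) z1 = -((-1)^(h+p) * (z1 * Sx (fun k => k * leg (h+p) k) (h+p+1) (1-z1))) := leg1 AA3 (h+p) z1
  rw [hnn, one_mul, z1_c, ← Sx_cj] at H2
  have H2' : (cj z1 * Sx (fun k => k * leg (h+p) k) (h+p+1) z1).re = 0 := by
    have := congrArg QuadraticAlgebra.re H2
    simp only [QuadraticAlgebra.re_neg, QuadraticAlgebra.re_mul, cj_re, cj_im] at this ⊢
    linarith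
  have Tint : Dr p 0 (Sx (fun k => k * Qd.tt k) (h+1) z1) := Sx_dr _ _ _ _ zi fun k _ => (Dv.nat k).mul0 (tt_int h2 k)
  set T := Sx (fun k => k * Qd.tt k) (h+1) z1 with hT
  set q := cj z1 * T with hq
  have q0 : Dr p 0 q := zi.cj.mul0 Tint
  have hqi : Dv p 2 q.im := by
    refine Dv_div2 p3 (Dv_eq ?_ H1.2)
    rw [hq]
    simp only [QuadraticAlgebra.im_add, QuadraticAlgebra.im_mul, QuadraticAlgebra.re_mul, QuadraticAlgebra.re_neg, QuadraticAlgebra.im_neg, QuadraticAlgebra.re_one, QuadraticAlgebra.im_one, cj_re, cj_im]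
    ring
  have c16 : Dv p 0 (16:ℚ) := by have := Dv.nat (p := p) 16; push_cast at this; exact this
  have c3 : Dv p 0 (3:ℚ) := by have := Dv.nat (p := p) 3; push_cast at this; exact this
  have hTz : Dr p 2 (T - AA3 (16*q.re) * z1) := by
    have h5 : Dr p 2 (q - AA3 q.re) := by
      refine ⟨Dv_eq ?_ (Dv.zero (p := p) 2), Dv_eq ?_ hqi⟩
      · rw [QuadraticAlgebra.re_sub, A3_re]; ring
      · rw [QuadraticAlgebra.im_sub, A3_im]; ring
    refine Dr_eq ?_ ((h5.mul0 zi).mul0 (Dr.A c16))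
    have h6 : AA3 16 * (z1 * cj z1) = 1 := by rw [z1_n, ← map_mul]; norm_num
    rw [map_mul, hq]
    linear_combination T * h6
  refine ⟨16*q.re, c16.mul0 q0.1, hTz, ?_⟩
  have hz2 : cj z1 * z1^p = AA3 (1/16) * z1^(2*h) := by
    rw [← z1_n, hh, pow_succ]; ring
  have e3 : (3:R3) = AA3 3 := (map_ofNat AA3 3).symm
  have e2 : (2:R3) = AA3 2 := (map_ofNat AA3 2).symm
  rw [e3, e2] at H3
  generalize AA3 3 * Sx Qd.tt (h+1) z1 - AA3 2 * (AA3 (1/Qd.tt h) * (z1^h * cj (Sx Qd.tt (h+1) Qd.x1))) = G1 at H3 ⊢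
  generalize AA3 2 * (AA3 (1/Qd.tt h) * (z1^h * (AA3 h * cj (Sx Qd.tt (h+1) Qd.x1) - cj (Sx (fun k => k * Qd.tt k) (h+1) Qd.x1)))) = G2 at H3 ⊢
  have H4 := (H3.mul0 zi.cj).mul0 (Dr.A c16)
  have H5 := hTz.mul0 (((zi.pow (2*h)).mul0 (Dr.A K0)).mul0 (Dr.A c3))
  have H6 := H4.add H5
  have hz3 : z1^(2*h) * z1 = z1^p := by rw [hh, pow_succ]
  have key : (Sx (fun n => (n:ℚ) * leg (h+p) n) (h+p+1) z1 - T - AA3 (leg (h+p) p) * z1^p * (AA3 p * G1 + (AA3 3 * T - G2))) * cj z1 * AA3 16 +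
      (T - AA3 (16*q.re) * z1) * (z1^(2*h) * AA3 (leg (h+p) p) * AA3 3) =
      AA3 16 * (cj z1 * Sx (fun k => k * leg (h+p) k) (h+p+1) z1) - AA3 16 * q - AA3 (leg (h+p) p) * (z1^(2*h) * (AA3 p * G1 - G2)) - AA3 (3 * leg (h+p) p * (16*q.re)) * z1^p := by
    have h7 : AA3 16 * AA3 (1/16) = 1 := by rw [← map_mul]; norm_num
    have h8 : AA3 (3 * leg (h+p) p * (16*q.re)) = AA3 3 * AA3 (leg (h+p) p) * AA3 (16*q.re) := by rw [map_mul, map_mul]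
    rw [h8, ← hz3, hq]
    have hz2' := hz2
    rw [← hz3] at hz2'
    linear_combination (-(AA3 16 * AA3 (leg (h+p) p) * (AA3 p * G1 + (AA3 3 * T - G2)))) * hz2' - AA3 (leg (h+p) p) * z1^(2*h) * (AA3 p * G1 + (AA3 3 * T - G2)) * h7
  rw [key] at H6
  refine Dv_eq ?_ H6.1.neg
  rw [QuadraticAlgebra.re_sub, QuadraticAlgebra.re_sub, QuadraticAlgebra.re_sub, QuadraticAlgebra.re_mul (AA3 16), H2', QuadraticAlgebra.re_mul (AA3 16) q, QuadraticAlgebra.re_mul (AA3 (leg (h+p) p)), QuadraticAlgebra.re_mul (AA3 (3 * leg (h+p) p * (16*q.re)))]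
  simp only [A3_re, A3_im]
  ring

end

end

end Pool.Agent.N926.Qe
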