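import Pool.Agent.N926.Qe.F

/-! numerical evaluation at `(2+√3)/4` -/

set_option autoImplicit false
set_option linter.unusedVariables false
set_option linter.unusedSectionVars false
set_option linter.unusedSimpArgs false

namespace Pool.Agent.N926.Qe

open Finset Pool.Agent.N926.Sup2 Pool.Agent.N926.Sup Pool.Agent.N926.F54 Pool.Agent.N926.F37 Pool.Agent.N926.Tri Pool.Agent.N926.Fib Pool.Agent.N926.Qd

noncomputable section

section
variable {p : ℕ} [hp : Fact p.Prime]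

theorem N1.unit_one {a w : ℚ} (h : LR p a w) : N1 p (1/a) 1 (-w) := by
  have := N1.ofLR h.inv
  refine this.congr (by rw [one_div]) rfl rfl

theorem main_z1 (p3 : 3 < p) {i : ℕ} (hi : p = 6*i+1) (i1 : 1 ≤ i) (hodd : i % 2 = 1) {j : ℕ} (hj : 3*i = 2*j+1)
    (l c f x2 x3 : ℚ) (hl : l = ((legendreSym p 2 : ℤ) : ℚ)) (hc : c = l*3^j) (hf : f = CC i) (hx2 : x2 = Hs 1 (2*i)) (hx3 : x3 = Hs 1 (3*i)) :
    N1 p (Sx Qd.tt (3*i+1) z1).im (l*c*f) (l*c*f*(2/3*x2 - 1/3*x3)) ∧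
    ∃ τ : ℚ, Dr p 2 (Sx (fun k => k * Qd.tt k) (3*i+1) z1 - AA3 τ * z1) ∧
      N1 p τ (2*(l*c*f)) (l*c*f*(4/3*x2 - 2/3*x3) - 2*(l*(c/f))) := by
  have hh : p = 2*(3*i)+1 := by omega
  have h2 : p ≠ 2 := by omega
  obtain ⟨nI, nR, -, -⟩ := first_odd p3 hi i1 hodd hj
  obtain ⟨nσr, nσi⟩ := sigma_odd p3 hi i1 hodd hj
  have D := mkData p3 hi i1
  have hcu := CC_unit (p := p) hi i1
  have hs1 : ((-1:ℚ)^i) = -1 := Odd.neg_one_pow ⟨i/2, by omega⟩
  have hth := D.th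
  rw [hs1] at hth
  have dp := Dv.p1 (p := p)
  have h31 : Dv p 1 ((3:ℚ)^(3*i) + 1) := by
    refine Dv_eq ?_ hth.one1
    ring
  obtain ⟨w, w0, hVe, hUe⟩ := UV_odd (p := p) p3 hh h31
  obtain ⟨hlv, -⟩ := two_h (p := p) p3 hh
  obtain ⟨eX, eY⟩ := ePow (p := p) (3*i) hh
  have zi := z1_int (p := p) p3
  obtain ⟨hS0, hS1⟩ := eqS (p := p) p3 hh (by omega)
  obtain ⟨τ, τ0, hT0, hT1⟩ := eqT (p := p) p3 hh (by omega)
  have nK := K2_N1 (p := p) p3 hh
  have Ltt := tth_LR (p := p) hh p3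
  have L4 := quarter_LR (p := p) hh p3
  rw [← hl] at nI nR nσr nσi hVe hUe
  rw [← hc] at nI nR nσr nσi
  rw [← hf] at nI nR nσr nσi hcu
  rw [← hx2, ← hx3] at nI nR
  rw [← hx3] at nK Ltt L4
  have hl' : l = 1 ∨ l = -1 := by rcases hlv with h | h <;> rw [hl, h] <;> norm_num
  have l0 : Dv p 0 l := by rw [hl]; exact Dv.int _
  have c2 : Dv p 0 (2:ℚ) := by have := Dv.nat (p := p) 2; push_cast at this; exact this
  have c3 : Dv p 0 (3:ℚ) := by have := Dv.nat (p := p) 3; push_cast at this; exact this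
  have c3j : Dv p 0 ((3:ℚ)^j) := by
    have := Dv.nat (p := p) (3^j)
    push_cast at this; exact this
  have c0 : Dv p 0 c := by rw [hc]; exact l0.mul0 c3j
  have f0 : Dv p 0 f := by rw [hf]; exact D.ff
  have th := half_int' (p := p) p3
  have t3 := third_int (p := p) p3
  have x30 : Dv p 0 x3 := by rw [hx3]; exact D.x3i
  have x20 : Dv p 0 x2 := by rw [hx2]; exact D.x2i
  have fi : Dv p 0 (1/f) := Dv.one.div_unit hcu.2
  have fq := hcu.1
  -- expand everything in components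
  set α := (Sx Qd.tt (3*i+1) Qd.x1).re with hα
  set β := (Sx Qd.tt (3*i+1) Qd.x1).im with hβ
  set s := (Sx Qd.tt (3*i+1) z1).im with hs
  set K := leg (3*i+p) p with hK
  set t := Qd.tt (3*i) with ht
  set U := (eE^(3*i)).re with hU
  set V := (eE^(3*i)).im with hV
  set X := (eE^p).re with hX
  set Y := (eE^p).im with hY
  set κ := (1/4:ℚ)^(3*i) with hκ
  have nU : N1 p U (-2*l) (-3*l*w) := ⟨hUe, Dv_eq (by ring) (c2.mul0 l0).neg, Dv_eq (by ring) ((c3.mul0 l0).mul0 w0).neg⟩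
  have nV : N1 p V l (2*l*w) := ⟨Dv_eq (by rw [hVe]; ring) (Dv.zero (p := p) 2), l0, (c2.mul0 l0).mul0 w0⟩
  have nX : N1 p X 2 (6*w) := by
    have := ((N1.intc (p := p) 2).mul ((nU.mul nU).add ((N1.intc 3).mul (nV.mul nV)))).add ((N1.intc 6).mul (nU.mul nV))
    refine this.congr ?_ ?_ ?_
    · rw [eX]; push_cast; ring
    · push_cast; rcases hl' with h | h <;> rw [h] <;> ring
    · push_cast; rcases hl' with h | h <;> rw [h] <;> ring
  have nY : N1 p Y (-1) (-4*w) := by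
    have := ((nU.mul nU).add ((N1.intc 3).mul (nV.mul nV))).add ((N1.intc 4).mul (nU.mul nV))
    refine this.congr ?_ ?_ ?_
    · rw [eY]; push_cast; ring
    · push_cast; rcases hl' with h | h <;> rw [h] <;> ring
    · push_cast; rcases hl' with h | h <;> rw [h] <;> ring
  have nκ : N1 p κ 1 (x3/2) := (N1.ofLR L4).congr rfl rfl (by ring)
  have nt : N1 p (1/t) 1 x3 := (N1.unit_one Ltt).congr rfl rfl (by ring)
  have nq : N1 p (1/4:ℚ) (1/4) 0 := N1.const (Dv_eq (by norm_num) (th.mul0 th))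
  have eκp : (1/4:ℚ)^p = 1/4 * (κ*κ) := by rw [hκ, ← pow_add]; conv_lhs => rw [hh]; rw [pow_succ]
                                           rw [show 2*(3*i) = 3*i+3*i by ring]; ring
  have nκp : N1 p ((1/4:ℚ)^p) (1/4) (x3/4) := (nq.mul (nκ.mul nκ)).congr eκp.symm (by ring) (by ring)
  have eP : z1^p = AA3 ((1/4)^p) * eE^p := z1_pow p
  have eH : z1^(3*i) = AA3 κ * eE^(3*i) := z1_pow (3*i)
  have nD : N1 p (-6*(1 + 3*K*(z1^p).re)) 12 (54*x3+54*w) := by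
    have := (N1.intc (p := p) (-6)).mul ((N1.intc 1).add (((N1.intc 3).mul nK).mul (nκp.mul nX)))
    refine this.congr ?_ ?_ ?_
    · rw [eP]; simp only [QuadraticAlgebra.re_mul, A3_re, A3_im]; push_cast; ring
    · push_cast; ring
    · push_cast; ring
  have nS : N1 p s (l*c*f) (l*c*f*(2/3*x2 - 1/3*x3)) := by
    have n1 := (N1.intc (p := p) (-12)).mul (nK.mul (((nκp.mul nt).mul nκ).mul ((((nX.mul nV).add (nY.mul nU)).mul nR).sub (((nX.mul nU).add (((N1.intc 3).mul nY).mul nV)).mul nI))))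
    have n2 : N1 p (-6*(1 + 3*K*(z1^p).re) * s) (12*(l*c*f)) (12*(l*c*f*(2/3*x2 - 1/3*x3)) + (54*x3+54*w)*(l*c*f)) := by
      refine (n1.congr rfl ?_ ?_).cong ?_
      · push_cast; rcases hl' with h | h <;> rw [h] <;> ring
      · push_cast; rcases hl' with h | h <;> rw [h] <;> ring
      · refine Dv_eq ?_ (hS1.mul0 (Dv.int (p := p) (-6)))
        rw [eP, eH]
        simp only [QuadraticAlgebra.re_mul, QuadraticAlgebra.im_mul, A3_re, A3_im, cj_re, cj_im]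
        push_cast
        ring
    exact (nD.solve12 p3 (Sx_dr _ _ _ _ zi fun k _ => tt_int h2 k : Dr p 0 (Sx Qd.tt (3*i+1) z1)).2 n2).congr rfl (by ring) (by ring)
  refine ⟨nS, τ, hT0, ?_⟩
  have nSr : N1 p (Sx Qd.tt (3*i+1) z1).re 0 0 := ⟨Dv_eq (by ring) hS0, Dv.zero _, Dv.zero _⟩
  have nh : N1 p ((3*i:ℕ):ℚ) (-(1/2)) (1/2) := by
    refine ⟨?_, (half_int' p3).neg, half_int' p3⟩
    have : (p:ℚ) = 2*((3*i:ℕ):ℚ)+1 := by exact_mod_cast hh
    refine Dv_eq ?_ (Dv.zero (p := p) 2)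
    rw [this]; ring
  set σ := Sx (fun k => k * Qd.tt k) (3*i+1) Qd.x1 - AA3 ((3*i:ℕ):ℚ) * nu * Sx Qd.tt (3*i+1) Qd.x1 with hσ
  have eT : Sx (fun k => k * Qd.tt k) (3*i+1) Qd.x1 = σ + AA3 ((3*i:ℕ):ℚ) * nu * Sx Qd.tt (3*i+1) Qd.x1 := by rw [hσ]; ring
  have n2c := N1.intc (p := p) 2
  have n3c := N1.intc (p := p) 3
  have n23 : N1 p (2/3:ℚ) (2/3) 0 := N1.const (Dv_eq (by ring) (c2.mul0 t3))
  have nZr := (nU.mul nU).add (n3c.mul (nV.mul nV))
  have nZi := n2c.mul (nU.mul nV)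
  have nGa := (nZr.mul ((n3c.mul nSr).sub (((n2c.mul nt).mul nκ).mul ((nU.mul nR).sub (n3c.mul (nV.mul nI)))))).add
    ((n3c.mul nZi).mul ((n3c.mul nS).sub (((n2c.mul nt).mul nκ).mul ((nV.mul nR).sub (nU.mul nI)))))
  have nGa' := N1.pmul nGa
  have nQr := (nh.mul ((n2c.mul nI).sub nR)).sub nσr
  have nQi := (nh.mul (nI.sub (n23.mul nR))).add nσi
  have nZ3r := (nZr.mul nU).add (n3c.mul (nZi.mul nV))
  have nZ3i := (nZr.mul nV).add (nZi.mul nU)
  have nGb := (nZ3r.mul nQr).add (n3c.mul (nZ3i.mul nQi))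
  have nG := ((nκ.mul nκ).mul nGa').sub ((((n2c.mul nt).mul nκ).mul (nκ.mul nκ)).mul nGb)
  have n1 := ((N1.intc (p := p) 6).mul nK).mul nG
  have n2 : N1 p (-6*(1 + 3*K*(z1^p).re) * τ) (12*(2*(l*c*f))) (12*(l*c*f*(4/3*x2 - 2/3*x3) - 2*(l*(c/f))) + (54*x3+54*w)*(2*(l*c*f))) := by
    refine (n1.congr rfl ?_ ?_).cong ?_
    · push_cast; rcases hl' with h | h <;> rw [h] <;> ring
    · push_cast; rcases hl' with h | h <;> rw [h] <;> field_simp <;> ring
    · refine Dv_eq ?_ (hT1.mul0 (Dv.int (p := p) (-6)))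
      have e2h : z1^(2*(3*i)) = AA3 (κ*κ) * (eE^(3*i) * eE^(3*i)) := by
        rw [two_mul, pow_add, eH, map_mul]; ring
      rw [e2h, eT, eP, eH]
      have r1 : nu.re = 2 := rfl
      have r2 : nu.im = -2/3 := rfl
      simp only [QuadraticAlgebra.re_sub, QuadraticAlgebra.im_sub, QuadraticAlgebra.re_add, QuadraticAlgebra.im_add, QuadraticAlgebra.re_mul, QuadraticAlgebra.im_mul, A3_re, A3_im, cj_re, cj_im, r1, r2]
      push_cast
      ring
  exact (nD.solve12 p3 τ0 n2).congr rfl (by ring) (by ring)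

end

end

end Pool.Agent.N926.Qe
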