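import Pool.Agent.N926.Qe.G

/-! the two congruences at `(2+√3)/4` -/

set_option autoImplicit false
set_option linter.unusedVariables false
set_option linter.unusedSectionVars false
set_option linter.unusedSimpArgs false

namespace Pool.Agent.N926.Qe

open Finset Pool.Agent.N926.Sup2 Pool.Agent.N926.Sup Pool.Agent.N926.F54 Pool.Agent.N926.F37 Pool.Agent.N926.Tri Pool.Agent.N926.Fib Pool.Agent.N926.Qd

noncomputable section

section
variable {p : ℕ} [hp : Fact p.Prime]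

theorem d57 (p3 : 3 < p) {i : ℕ} (hi : p = 6*i+1) (i1 : 1 ≤ i) (hodd : i % 2 = 1) {j : ℕ} (hj : 3*i = 2*j+1)
    {x y : ℤ} (h : x^2 + 3*y^2 = p) (hx : x % 3 = 1) (hy : y % 4 = 1) :
    Dv p 2 ((Sx Qd.tt (3*i+1) z1).im - (2*(y:ℚ) - p/(6*(y:ℚ)))) ∧
    Dv p 2 ((Sx (fun k => k * Qd.tt k) (3*i+1) z1).im - (y:ℚ)) := by
  obtain ⟨nS, τ, hT, nτ⟩ := main_z1 p3 hi i1 hodd hj _ _ _ _ _ rfl rfl rfl rfl rfl
  obtain ⟨o1, o2⟩ := odd_pack p3 hi i1 hodd hj h hx hy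
  have nI := (first_odd p3 hi i1 hodd hj).1
  have dp := Dv.p1 (p := p)
  have th := half_int' (p := p) p3
  have y0 : y ≠ 0 := by rintro rfl; norm_num at hy
  have yq : (y:ℚ) ≠ 0 := by exact_mod_cast y0
  have l0 : Dv p 0 (((legendreSym p 2 : ℤ) : ℚ)) := Dv.int _
  have p0 : (p:ℚ) ≠ 0 := by exact_mod_cast hp.out.ne_zero
  have op : Dv p 2 (p * (((legendreSym p 2 : ℤ) : ℚ) * ((((legendreSym p 2 : ℤ) : ℚ)*3^j)/CC i) + 1/(6*(y:ℚ)))) := dp.mul o2
  have hcf := (CC_unit (p := p) hi i1).1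
  constructor
  · refine Dv_eq ?_ ((nS.1.sub ((nI.1.mul0 l0).mul0 th)).add (o1.mul0 th))
    field_simp
    ring
  · have c2 : Dv p 0 (2:ℚ) := by have := Dv.nat (p := p) 2; push_cast at this; exact this
    have a := (nτ.1.sub (nI.1.mul0 l0)).add (o1.sub (op.mul0 c2))
    have b := (a.mul0 (th.mul0 th)).add hT.2
    refine Dv_eq ?_ b
    rw [QuadraticAlgebra.im_sub, QuadraticAlgebra.im_mul, A3_re, A3_im]
    have r2 : z1.im = 1/4 := rfl
    rw [r2]
    field_simp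
    ring

end

end

end Pool.Agent.N926.Qe
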