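import Pool.Agent.N926.Qe.H

/-! the ring `ℚ(√3, i)` -/

set_option autoImplicit false
set_option linter.unusedVariables false
set_option linter.unusedSectionVars false
set_option linter.unusedSimpArgs false

namespace Pool.Agent.N926.Qe

open Finset Pool.Agent.N926.Sup2 Pool.Agent.N926.Sup Pool.Agent.N926.F54 Pool.Agent.N926.F37 Pool.Agent.N926.Tri Pool.Agent.N926.Fib Pool.Agent.N926.Qd

noncomputable section

abbrev R12 := QuadraticAlgebra R3 (-1) 0

def B12 : R3 →+* R12 := algebraMap R3 R12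
def A12 : ℚ →+* R12 := B12.comp AA3

theorem B_re (x : R3) : (B12 x).re = x := rfl
theorem B_im (x : R3) : (B12 x).im = 0 := rfl
theorem A12_re (c : ℚ) : (A12 c).re = AA3 c := rfl
theorem A12_im (c : ℚ) : (A12 c).im = 0 := rfl
theorem A12_B (c : ℚ) : A12 c = B12 (AA3 c) := rfl

/-- conjugation `i → -i` -/
def cc : R12 →+* R12 where
  toFun z := ⟨z.re, -z.im⟩
  map_one' := by ext1 <;> simp [QuadraticAlgebra.re_one, QuadraticAlgebra.im_one]
  map_zero' := by ext1 <;> simp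
  map_add' a b := by
    ext1
    · simp
    · simp; ring
  map_mul' a b := by
    ext1
    · simp
    · simp; ring

theorem cc_re (z : R12) : (cc z).re = z.re := rfl
theorem cc_im (z : R12) : (cc z).im = -z.im := rfl
theorem cc_B (x : R3) : cc (B12 x) = B12 x := by
  ext1
  · rw [cc_re]
  · rw [cc_im, B_im]; simp
theorem cc_A (c : ℚ) : cc (A12 c) = A12 c := cc_B _
theorem cccc (z : R12) : cc (cc z) = z := by
  ext1
  · rw [cc_re, cc_re]
  · rw [cc_im, cc_im, neg_neg]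

def Dq (p : ℕ) (n : ℤ) (z : R12) : Prop := Dr p n z.re ∧ Dr p n z.im

section
variable {p : ℕ} [hp : Fact p.Prime]

theorem Dq.zero (n : ℤ) : Dq p n 0 := ⟨Dr.zero _, Dr.zero _⟩
theorem Dq.add {n : ℤ} {x y : R12} (hx : Dq p n x) (hy : Dq p n y) : Dq p n (x+y) := ⟨hx.1.add hy.1, hx.2.add hy.2⟩
theorem Dq.neg {n : ℤ} {x : R12} (hx : Dq p n x) : Dq p n (-x) := ⟨hx.1.neg, hx.2.neg⟩
theorem Dq.sub {n : ℤ} {x y : R12} (hx : Dq p n x) (hy : Dq p n y) : Dq p n (x-y) := ⟨hx.1.sub hy.1, hx.2.sub hy.2⟩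
theorem Dq.mul {m n : ℤ} {x y : R12} (hx : Dq p m x) (hy : Dq p n y) : Dq p (m+n) (x*y) := by
  constructor
  · have h := (hx.1.mul hy.1).sub (hx.2.mul hy.2)
    refine Dr_eq ?_ h
    rw [QuadraticAlgebra.re_mul]
    ring
  · have h := (hx.1.mul hy.2).add (hx.2.mul hy.1)
    refine Dr_eq ?_ h
    rw [QuadraticAlgebra.im_mul]
    ring
theorem Dq.mul0 {n : ℤ} {x y : R12} (hx : Dq p n x) (hy : Dq p 0 y) : Dq p n (x*y) := by simpa using hx.mul hy
theorem Dq.B {n : ℤ} {x : R3} (h : Dr p n x) : Dq p n (B12 x) := ⟨h, Dr.zero _⟩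
theorem Dq.A {n : ℤ} {c : ℚ} (h : Dv p n c) : Dq p n (A12 c) := Dq.B (Dr.A h)
theorem Dq.one : Dq p 0 (1:R12) := by
  have := Dq.A (p := p) (Dv.one (p := p))
  simpa using this
theorem Dq.pow {x : R12} (hx : Dq p 0 x) (k : ℕ) : Dq p 0 (x^k) := by
  induction k with
  | zero => simpa using Dq.one (p := p)
  | succ k ih => rw [pow_succ]; exact ih.mul0 hx
theorem Dq.sum {ι : Type*} {n : ℤ} (s : Finset ι) (f : ι → R12) (h : ∀ i ∈ s, Dq p n (f i)) : Dq p n (∑ i ∈ s, f i) := by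
  classical
  induction s using Finset.induction_on with
  | empty => simpa using Dq.zero (p := p) n
  | insert a s ha ih =>
    rw [sum_insert ha]
    exact (h a (mem_insert_self _ _)).add (ih fun i hi => h i (mem_insert_of_mem hi))
theorem Dq.cc {n : ℤ} {x : R12} (hx : Dq p n x) : Dq p n (cc x) := ⟨hx.1, hx.2.neg⟩
theorem Dq_eq {n : ℤ} {a b : R12} (h : a = b) (ha : Dq p n a) : Dq p n b := h ▸ ha

theorem Sg_dq (c : ℕ → ℚ) (N : ℕ) (x : R12) (n : ℤ) (hx : Dq p 0 x) (hc : ∀ k < N, Dv p n (c k)) : Dq p n (Sg A12 c N x) :=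
  Dq.sum _ _ fun k hk => (Dq.A (hc k (mem_range.1 hk))).mul0 (hx.pow k)
end

theorem Sg_cc (c : ℕ → ℚ) (N : ℕ) (x : R12) : cc (Sg A12 c N x) = Sg A12 c N (cc x) := by
  unfold Sg
  rw [map_sum]
  exact sum_congr rfl fun k _ => by rw [map_mul, map_pow, cc_A]

theorem Sg_B (c : ℕ → ℚ) (N : ℕ) (x : R3) : Sg A12 c N (B12 x) = B12 (Sx c N x) := by
  unfold Sg Sx
  rw [map_sum]
  exact sum_congr rfl fun k _ => by rw [map_mul, map_pow, A12_B]

theorem Sg_sub {R : Type*} [CommRing R] (A : ℚ →+* R) (c d : ℕ → ℚ) (N : ℕ) (x : R) : Sg A c N x - Sg A d N x = Sg A (fun k => c k - d k) N x := by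
  unfold Sg
  rw [← sum_sub_distrib]
  exact sum_congr rfl fun k _ => by rw [map_sub]; ring

def yy : R12 := ⟨⟨0,1/2⟩,⟨1/2,0⟩⟩
def zz : R12 := ⟨⟨1/2,0⟩,⟨0,1/2⟩⟩
def ii : R12 := ⟨0,1⟩

theorem f1 : yy^2 = zz := by
  rw [pow_two]; unfold yy zz
  ext <;> simp <;> norm_num
theorem f2 : (1+yy)^2 = yy * B12 eE := by
  rw [pow_two]; unfold yy eE B12
  ext <;> simp [QuadraticAlgebra.re_one, QuadraticAlgebra.im_one, QuadraticAlgebra.algebraMap_re, QuadraticAlgebra.algebraMap_im] <;> norm_num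
theorem f3 : B12 eE * B12 (cj eE) = 1 := by rw [← map_mul, Qd.ee, map_one]
theorem f4 : (1-zz)*zz = 1 := by
  unfold zz
  ext <;> simp [QuadraticAlgebra.re_one, QuadraticAlgebra.im_one] <;> norm_num
theorem f8 : 1-zz = cc zz := by
  unfold zz cc
  ext <;> simp [QuadraticAlgebra.re_one, QuadraticAlgebra.im_one] <;> norm_num
theorem f5 : -(zz*zz) = cc zz := by rw [← f8]; linear_combination f4
theorem f6 : cc zz * cc yy = -ii := by
  unfold zz yy ii cc
  ext <;> simp [QuadraticAlgebra.re_one, QuadraticAlgebra.im_one] <;> norm_num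
theorem f7 : ii*ii = -1 := by
  unfold ii
  ext <;> simp [QuadraticAlgebra.re_one, QuadraticAlgebra.im_one]
theorem f9 : (1 + cc yy) * (yy * (1 - ii * B12 (cj eE))) = 2 := by
  have e2 : (2:R12) = 1 + 1 := by norm_num
  rw [e2]
  unfold yy ii cc cj eE B12
  ext <;> simp [QuadraticAlgebra.re_one, QuadraticAlgebra.im_one, QuadraticAlgebra.algebraMap_re, QuadraticAlgebra.algebraMap_im, Qd.A3] <;> norm_num
theorem f10 : (1 - cc yy) * (yy * (1 - ii * B12 (cj eE))) = 2 * (ii * B12 (cj eE)) := by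
  have e2 : (2:R12) = 1 + 1 := by norm_num
  rw [e2]
  unfold yy ii cc cj eE B12
  ext <;> simp [QuadraticAlgebra.re_one, QuadraticAlgebra.im_one, QuadraticAlgebra.algebraMap_re, QuadraticAlgebra.algebraMap_im, Qd.A3] <;> norm_num
theorem f11 : cc yy * yy = 1 := by
  unfold yy cc
  ext <;> simp [QuadraticAlgebra.re_one, QuadraticAlgebra.im_one] <;> norm_num
theorem f12 : 1 - ii * B12 (cj eE) - 2 * zz = -(2 * ii) := by
  have e2 : (2:R12) = 1 + 1 := by norm_num
  rw [e2]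
  unfold zz ii cj eE B12
  ext <;> simp [QuadraticAlgebra.re_one, QuadraticAlgebra.im_one, QuadraticAlgebra.algebraMap_re, QuadraticAlgebra.algebraMap_im, Qd.A3] <;> norm_num
theorem f13 : A12 4 * B12 (cj eE) = B12 (cj Qd.x1) := by
  rw [A12_B, ← map_mul, se3, map_mul cj, cj_A]
theorem f14 : zz^3 = -1 := by
  have h := f4
  calc zz^3 = -(1-zz)*(zz*1)+zz^2 - (0:R12) + ((1-zz)*zz - 1)*0 + (zz^3 + (1-zz)*zz - zz^2) := by ring
    _ = -1 := by
      have : zz^2 = zz - 1 := by linear_combination (-1:R12)*h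
      have h3 : zz^3 = zz*zz^2 := by ring
      rw [h3, this]
      linear_combination (-1:R12)*h + 0*h

end

end Pool.Agent.N926.Qe
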