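import Pool.Agent.N926.Qe.J

/-! the sums at `exp(iπ/3)` through Landen's transformation -/

set_option autoImplicit false
set_option linter.unusedVariables false
set_option linter.unusedSectionVars false
set_option linter.unusedSimpArgs false

namespace Pool.Agent.N926.Qe

open Finset Pool.Agent.N926.Sup2 Pool.Agent.N926.Sup Pool.Agent.N926.F54 Pool.Agent.N926.F37 Pool.Agent.N926.Tri Pool.Agent.N926.Fib Pool.Agent.N926.Qd

noncomputable section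

theorem lanS (h : ℕ) : Sg A12 (pbq h) (h+1) zz = yy^h * B12 eE^h * B12 (Sx (dd h) (h+1) (cj Qd.x1)) := by
  rw [← f1, lan0 A12 yy (B12 eE) (B12 (cj eE)) f2 f3 h, f13, Sg_B]

theorem lanT (h : ℕ) : 2 * cc (Sg A12 (fun k => k * pbq h k) (h+1) zz) = cc yy^h * B12 eE^h *
    (ii * B12 (cj eE) * B12 (Sx (fun k => k * dd h k) (h+1) (cj Qd.x1)) + A12 h * (1 - ii * B12 (cj eE)) * B12 (Sx (dd h) (h+1) (cj Qd.x1))) := by
  have h1 := lan1 A12 yy (B12 eE) (B12 (cj eE)) f2 f3 h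
  rw [f13, Sg_B, Sg_B, f1] at h1
  have h2 := congrArg cc h1
  simp only [map_mul, map_add, map_sub, map_pow, map_one, map_ofNat, cc_B, cc_A] at h2
  have g1 := f9
  have g2 := f10
  have g3 := f11
  have hη : (2:R12) * A12 (1/2) = 1 := by
    have : (2:R12) = A12 2 := (map_ofNat A12 2).symm
    rw [this, ← map_mul]; norm_num
  generalize cc (Sg A12 (fun k => k * pbq h k) (h+1) zz) = Tb at *
  generalize B12 (Sx (fun k => k * dd h k) (h+1) (cj Qd.x1)) = N at *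
  generalize B12 (Sx (dd h) (h+1) (cj Qd.x1)) = M at *
  generalize B12 (cj eE) = e' at *
  generalize B12 eE^h = E at *
  generalize cc yy = yb at *
  generalize A12 (h:ℚ) = hn at *
  generalize A12 (1/2) = η at *
  -- multiply by `yy (1 - ii e')` and divide by 2
  linear_combination (η * (yy * (1 - ii*e'))) * h2 - η * (2*Tb) * g1 + η * yb^h * E * N * g2 + (η * 2 * hn * yb^h * E * M * (1 - ii*e')) * g3 - (2*Tb - yb^h*E*(ii*e'*N + hn*(1-ii*e')*M)) * hη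

section
variable {p : ℕ} [hp : Fact p.Prime]

theorem zz_int (p3 : 3 < p) : Dq p 0 zz := by
  have th := half_int' (p := p) p3
  exact ⟨⟨th, Dv.zero _⟩, ⟨Dv.zero _, th⟩⟩

theorem ii_int : Dq p 0 ii := ⟨Dr.zero _, Dr.one⟩

theorem S12 (p3 : 3 < p) {h : ℕ} (hh : p = 2*h+1) :
    Dq p 2 (Sg A12 Qd.tt (h+1) zz - (-ii)^h * B12 (eE^h * Sx (dd h) (h+1) (cj Qd.x1))) := by
  have h2 : p ≠ 2 := by omega
  have h1 := pf0 A12 zz zz f4 h
  have a1 : Dq p 2 (Sg A12 (fun k => leg h k - Qd.tt k) (h+1) zz) := Sg_dq _ _ _ _ (zz_int p3) fun k hk => leg_h h2 hh (by omega)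
  rw [← Sg_sub] at a1
  have e : Sg A12 (leg h) (h+1) zz = (-ii)^h * B12 (eE^h * Sx (dd h) (h+1) (cj Qd.x1)) := by
    rw [h1, f5, f8]
    have : Sg A12 (fun k => ((h.choose k : ℕ) : ℚ)^2) (h+1) (cc zz) = cc (Sg A12 (pbq h) (h+1) zz) := by rw [Sg_cc]; rfl
    rw [this, lanS]
    simp only [map_mul, map_pow, cc_B]
    rw [← f6, mul_pow]
    ring
  rw [e] at a1
  refine Dq_eq ?_ a1.neg
  ring

theorem T12 (p3 : 3 < p) {h : ℕ} (hh : p = 2*h+1) :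
    Dq p 2 (2 * Sg A12 (fun k => k * Qd.tt k) (h+1) zz - (-ii)^h * ii * zz * B12 (eE^h * (cj eE * Sx (fun k => k * dd h k) (h+1) (cj Qd.x1) - 2 * AA3 h * Sx (dd h) (h+1) (cj Qd.x1)))) := by
  have h2 : p ≠ 2 := by omega
  have h1 := pf1 A12 zz zz f4 h
  have a1 : Dq p 2 (Sg A12 (fun k => k * leg h k - k * Qd.tt k) (h+1) zz) := Sg_dq _ _ _ _ (zz_int p3) fun k hk => by
    refine Dv_eq ?_ ((leg_h h2 hh (show k ≤ h by omega)).mul0 (Dv.nat k))
    ring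
  rw [← Sg_sub] at a1
  have e : 2 * Sg A12 (fun k => k * leg h k) (h+1) zz = (-ii)^h * ii * zz * B12 (eE^h * (cj eE * Sx (fun k => k * dd h k) (h+1) (cj Qd.x1) - 2 * AA3 h * Sx (dd h) (h+1) (cj Qd.x1))) := by
    rw [h1, f5, f8]
    have e1 : Sg A12 (fun k => ((h.choose k : ℕ) : ℚ)^2) (h+1) (cc zz) = cc (Sg A12 (pbq h) (h+1) zz) := by rw [Sg_cc]; rfl
    have e2 : Sg A12 (fun k => k * ((h.choose k : ℕ) : ℚ)^2) (h+1) (cc zz) = cc (Sg A12 (fun k => k * pbq h k) (h+1) zz) := by rw [Sg_cc]; rfl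
    have e3 := lanT h
    rw [e1, e2, lanS]
    have g := f12
    have hP : (-ii)^h = cc zz^h * cc yy^h := by rw [← f6, mul_pow]
    rw [hP]
    simp only [map_mul, map_pow, map_sub, cc_B, map_ofNat]
    have hA : B12 (AA3 (h:ℚ)) = A12 (h:ℚ) := rfl
    rw [hA]
    generalize cc (Sg A12 (fun k => k * pbq h k) (h+1) zz) = Tb at *
    generalize B12 (Sx (fun k => k * dd h k) (h+1) (cj Qd.x1)) = N at *
    generalize B12 (Sx (dd h) (h+1) (cj Qd.x1)) = M at *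
    generalize B12 (cj eE) = e' at *
    generalize B12 eE^h = E at *
    generalize cc yy = yb at *
    generalize A12 (h:ℚ) = hn at *
    linear_combination (cc zz^h * zz) * e3 + (cc zz^h * yb^h * E * zz * hn * M) * g
  have c2 : Dq p 0 (2:R12) := by
    have := Dq.A (p := p) (by have := Dv.nat (p := p) 2; push_cast at this; exact this : Dv p 0 (2:ℚ))
    refine Dq_eq ?_ this
    exact map_ofNat A12 2
  refine Dq_eq ?_ (a1.mul0 c2).neg
  linear_combination (-1:R12) * e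

/-- `dd ≡ (tt + C²)/2` -/
theorem dd_eq {h : ℕ} (hh : p = 2*h+1) (k : ℕ) : dd h k = Qd.tt k * UU p 1 k := by
  have hpq : (p:ℚ) = 2*h+1 := by rw [hh]; push_cast; ring
  induction k with
  | zero => simp [dd, Qd.tt, UU]
  | succ k ih =>
    have e2 : Qd.tt (k+1) = Qd.tt k * ((2*(k:ℚ)+1)/(2*((k:ℚ)+1)))^2 := by unfold Qd.tt; rw [prod_range_succ]
    have e3 : UU p 1 (k+1) = UU p 1 k * (1 - 1*p/(2*(k:ℚ)+1)) := by unfold UU; rw [prod_range_succ]
    have h1 := ch_up h k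
    have h2 := cb_up k
    have hk : (k:ℚ)+1 ≠ 0 := by positivity
    have b1 : 2*(k:ℚ)+1 ≠ 0 := by positivity
    have e4 : ((h.choose (k+1) : ℕ) : ℚ) = ((h:ℚ)-k) * ((h.choose k : ℕ) : ℚ) / ((k:ℚ)+1) := by rw [eq_div_iff hk]; linarith
    have e5 : (((2*(k+1)).choose (k+1) : ℕ) : ℚ) = 2*(2*(k:ℚ)+1) * (((2*k).choose k : ℕ) : ℚ) / ((k:ℚ)+1) := by
      rw [eq_div_iff hk]; linarith
    have e6 : dd h (k+1) = dd h k * (((h:ℚ)-k)/((k:ℚ)+1) * (-1) * (2*(2*(k:ℚ)+1)/((k:ℚ)+1)) / 4) := by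
      unfold dd
      rw [e4, e5, pow_succ, pow_succ]
      have : (4:ℚ)^k ≠ 0 := by positivity
      field_simp
    rw [e6, ih, e2, e3, hpq]
    field_simp
    ring

theorem dd_cong (p3 : 3 < p) {h : ℕ} (hh : p = 2*h+1) {k : ℕ} (hk : k ≤ h) : Dv p 2 (dd h k - (Qd.tt k + pbf h k)/2) := by
  rw [dd_eq hh k]
  unfold pbf
  rw [pb_eq hh k hk]
  have L := (UU_LR (p := p) Dv.one hh hk).one1
  have := ((L.mul L).mul0 (tt_int (p := p) (by omega) k)).mul0 (half_int' p3)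
  refine Dv_eq ?_ this.neg
  ring

theorem M_cong (p3 : 3 < p) {h : ℕ} (hh : p = 2*h+1) : Dr p 2 (Sx (dd h) (h+1) (cj Qd.x1) -
    AA3 (1/2) * (cj (Sx Qd.tt (h+1) Qd.x1) + cj ((1-Qd.x1)^h * cj (Sx Qd.tt (h+1) Qd.x1)))) := by
  have a1 : Dr p 2 (Sx (fun k => dd h k - (Qd.tt k + pbf h k)/2) (h+1) (cj Qd.x1)) := Sx_dr _ _ _ _ x1_int.cj fun k hk => dd_cong p3 hh (by omega)
  rw [← Sx_sub] at a1
  have a2 := (P_one' (p := p) (by omega) hh).cj
  have e : Sx (fun k => (Qd.tt k + pbf h k)/2) (h+1) (cj Qd.x1) = AA3 (1/2) * (cj (Sx Qd.tt (h+1) Qd.x1) + cj (Sx (pbf h) (h+1) Qd.x1)) := by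
    rw [Sx_cj, Sx_cj]
    unfold Sx
    rw [← sum_add_distrib, mul_sum]
    refine sum_congr rfl fun n _ => ?_
    have e2 : AA3 ((Qd.tt n + pbf h n)/2) = AA3 (1/2) * (AA3 (Qd.tt n) + AA3 (pbf h n)) := by
      rw [← map_add, ← map_mul]; congr 1; ring
    show AA3 ((Qd.tt n + pbf h n)/2) * _ = _
    rw [e2]; ring
  rw [e] at a1
  refine Dr_eq ?_ (a1.add (a2.mul0 (Dr.A (half_int' p3))))
  rw [map_sub]
  ring

theorem N_cong (p3 : 3 < p) {h : ℕ} (hh : p = 2*h+1) : Dr p 2 (Sx (fun k => k * dd h k) (h+1) (cj Qd.x1) -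
    AA3 (1/2) * (cj (Sx (fun k => k * Qd.tt k) (h+1) Qd.x1) + cj ((1-Qd.x1)^h * (u1 * cj (Sx (fun k => k * Qd.tt k) (h+1) Qd.x1) + AA3 h * cj Qd.x1 * cj (Sx Qd.tt (h+1) Qd.x1))))) := by
  have a1 : Dr p 2 (Sx (fun k => k * dd h k - k * ((Qd.tt k + pbf h k)/2)) (h+1) (cj Qd.x1)) := Sx_dr _ _ _ _ x1_int.cj fun k hk => by
    refine Dv_eq ?_ ((dd_cong p3 hh (show k ≤ h by omega)).mul0 (Dv.nat k))
    ring
  rw [← Sx_sub] at a1
  have a2 := (P_theta' (p := p) (by omega) hh).cj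
  have e : Sx (fun k => k * ((Qd.tt k + pbf h k)/2)) (h+1) (cj Qd.x1) = AA3 (1/2) * (cj (Sx (fun k => k * Qd.tt k) (h+1) Qd.x1) + cj (Sx (fun k => k * pbf h k) (h+1) Qd.x1)) := by
    rw [Sx_cj, Sx_cj]
    unfold Sx
    rw [← sum_add_distrib, mul_sum]
    refine sum_congr rfl fun n _ => ?_
    have e2 : AA3 (n * ((Qd.tt n + pbf h n)/2)) = AA3 (1/2) * (AA3 (n * Qd.tt n) + AA3 (n * pbf h n)) := by
      rw [← map_add, ← map_mul]; congr 1; ring
    show AA3 (n * ((Qd.tt n + pbf h n)/2)) * _ = _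
    rw [e2]; ring
  rw [e] at a1
  refine Dr_eq ?_ (a1.add (a2.mul0 (Dr.A (half_int' p3))))
  rw [map_sub]
  ring

end

end

end Pool.Agent.N926.Qe
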