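import Pool.Agent.N926.Qe.K

/-! evaluation at `exp(iπ/3)` -/

set_option autoImplicit false
set_option linter.unusedVariables false
set_option linter.unusedSectionVars false
set_option linter.unusedSimpArgs false

namespace Pool.Agent.N926.Qe

open Finset Pool.Agent.N926.Sup2 Pool.Agent.N926.Sup Pool.Agent.N926.F54 Pool.Agent.N926.F37 Pool.Agent.N926.Tri Pool.Agent.N926.Fib Pool.Agent.N926.Qd

noncomputable section

theorem ii_pow (j : ℕ) : (-ii)^(2*j+1) = -(B12 (AA3 ((-1)^j)) * ii) := by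
  have h : (-ii)^2 = B12 (AA3 (-1)) := by
    rw [neg_sq, pow_two, f7]; simp
  rw [pow_succ, pow_mul, h, ← map_pow, ← map_pow]
  ring

section
variable {p : ℕ} [hp : Fact p.Prime]

theorem z6_num (p3 : 3 < p) {i : ℕ} (hi : p = 6*i+1) (i1 : 1 ≤ i) (hodd : i % 2 = 1) {j : ℕ} (hj : 3*i = 2*j+1)
    (l c f x2 x3 : ℚ) (hl : l = ((legendreSym p 2 : ℤ) : ℚ)) (hc : c = l*3^j) (hf : f = CC i) (hx2 : x2 = Hs 1 (2*i)) (hx3 : x3 = Hs 1 (3*i)) :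
    N1 p (eE^(3*i) * (AA3 (1/2) * (cj (Sx Qd.tt (3*i+1) Qd.x1) + cj ((1-Qd.x1)^(3*i) * cj (Sx Qd.tt (3*i+1) Qd.x1))))).im (l*c*f) (l*c*f*(2/3*x2 - 1/3*x3)) ∧
    N1 p (eE^(3*i) * (cj eE * (AA3 (1/2) * (cj (Sx (fun k => k * Qd.tt k) (3*i+1) Qd.x1) + cj ((1-Qd.x1)^(3*i) * (u1 * cj (Sx (fun k => k * Qd.tt k) (3*i+1) Qd.x1) + AA3 ((3*i:ℕ):ℚ) * cj Qd.x1 * cj (Sx Qd.tt (3*i+1) Qd.x1))))) -
      2 * AA3 ((3*i:ℕ):ℚ) * (AA3 (1/2) * (cj (Sx Qd.tt (3*i+1) Qd.x1) + cj ((1-Qd.x1)^(3*i) * cj (Sx Qd.tt (3*i+1) Qd.x1)))))).re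
      (l*c*f) (l*c*f*(2/3*x2 - 1/3*x3) - l*(c/f)) := by
  have hh : p = 2*(3*i)+1 := by omega
  have h2 : p ≠ 2 := by omega
  obtain ⟨nI, nR, -, -⟩ := first_odd p3 hi i1 hodd hj
  obtain ⟨nσr, nσi⟩ := sigma_odd p3 hi i1 hodd hj
  have D := mkData p3 hi i1
  have hcu := CC_unit (p := p) hi i1
  have hs1 : ((-1:ℚ)^i) = -1 := Odd.neg_one_pow ⟨i/2, by omega⟩
  have hth := D.th
  rw [hs1] at hth
  have h31 : Dv p 1 ((3:ℚ)^(3*i) + 1) := by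
    refine Dv_eq ?_ hth.one1
    ring
  obtain ⟨w, w0, hVe, hUe⟩ := UV_odd (p := p) p3 hh h31
  obtain ⟨hlv, -⟩ := two_h (p := p) p3 hh
  rw [← hl] at nI nR nσr nσi hVe hUe
  rw [← hc] at nI nR nσr nσi
  rw [← hf] at nI nR nσr nσi hcu
  rw [← hx2, ← hx3] at nI nR
  have hl' : l = 1 ∨ l = -1 := by rcases hlv with h | h <;> rw [hl, h] <;> norm_num
  have l0 : Dv p 0 l := by rw [hl]; exact Dv.int _
  have c2 : Dv p 0 (2:ℚ) := by have := Dv.nat (p := p) 2; push_cast at this; exact this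
  have c3 : Dv p 0 (3:ℚ) := by have := Dv.nat (p := p) 3; push_cast at this; exact this
  have fq := hcu.1
  have hneg : ((-1:R3)^(3*i)) = -1 := Odd.neg_one_pow ⟨j, hj⟩
  have hZ := cancel_e (3*i)
  have hZL : eE^(3*i) * cj ((1-Qd.x1)^(3*i)) = -cj (eE^(3*i)) := by
    rw [L_pow, hneg, map_mul, map_neg, map_one, map_pow]
    linear_combination (-(cj (eE^(3*i)))) * hZ
  have e1 : eE^(3*i) * (AA3 (1/2) * (cj (Sx Qd.tt (3*i+1) Qd.x1) + cj ((1-Qd.x1)^(3*i) * cj (Sx Qd.tt (3*i+1) Qd.x1)))) =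
      AA3 (1/2) * (eE^(3*i) * cj (Sx Qd.tt (3*i+1) Qd.x1) - cj (eE^(3*i)) * Sx Qd.tt (3*i+1) Qd.x1) := by
    rw [map_mul cj, cjcj]
    linear_combination (AA3 (1/2) * Sx Qd.tt (3*i+1) Qd.x1) * hZL
  have e2 : eE^(3*i) * (cj eE * (AA3 (1/2) * (cj (Sx (fun k => k * Qd.tt k) (3*i+1) Qd.x1) + cj ((1-Qd.x1)^(3*i) * (u1 * cj (Sx (fun k => k * Qd.tt k) (3*i+1) Qd.x1) + AA3 ((3*i:ℕ):ℚ) * cj Qd.x1 * cj (Sx Qd.tt (3*i+1) Qd.x1))))) -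
      2 * AA3 ((3*i:ℕ):ℚ) * (AA3 (1/2) * (cj (Sx Qd.tt (3*i+1) Qd.x1) + cj ((1-Qd.x1)^(3*i) * cj (Sx Qd.tt (3*i+1) Qd.x1))))) =
      AA3 (1/2) * (eE^(3*i) * cj eE * cj (Sx (fun k => k * Qd.tt k) (3*i+1) Qd.x1) - cj (eE^(3*i)) * cj eE * (cj u1 * Sx (fun k => k * Qd.tt k) (3*i+1) Qd.x1 + AA3 ((3*i:ℕ):ℚ) * Qd.x1 * Sx Qd.tt (3*i+1) Qd.x1)) -
      AA3 (2 * ((3*i:ℕ):ℚ)) * (AA3 (1/2) * (eE^(3*i) * cj (Sx Qd.tt (3*i+1) Qd.x1) - cj (eE^(3*i)) * Sx Qd.tt (3*i+1) Qd.x1)) := by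
    rw [← e1]
    have h5 : cj ((1-Qd.x1)^(3*i) * (u1 * cj (Sx (fun k => k * Qd.tt k) (3*i+1) Qd.x1) + AA3 ((3*i:ℕ):ℚ) * cj Qd.x1 * cj (Sx Qd.tt (3*i+1) Qd.x1))) =
        cj ((1-Qd.x1)^(3*i)) * (cj u1 * Sx (fun k => k * Qd.tt k) (3*i+1) Qd.x1 + AA3 ((3*i:ℕ):ℚ) * Qd.x1 * Sx Qd.tt (3*i+1) Qd.x1) := by
      rw [map_mul cj, map_add cj, map_mul cj, map_mul cj, map_mul cj, cjcj, cjcj, cjcj, cj_A]
    have h6 : AA3 (2 * ((3*i:ℕ):ℚ)) = 2 * AA3 ((3*i:ℕ):ℚ) := by rw [map_mul, map_ofNat]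
    rw [h5, h6]
    linear_combination (AA3 (1/2) * cj eE * (cj u1 * Sx (fun k => k * Qd.tt k) (3*i+1) Qd.x1 + AA3 ((3*i:ℕ):ℚ) * Qd.x1 * Sx Qd.tt (3*i+1) Qd.x1)) * hZL
  rw [e1, e2]
  set σ := Sx (fun k => k * Qd.tt k) (3*i+1) Qd.x1 - AA3 ((3*i:ℕ):ℚ) * nu * Sx Qd.tt (3*i+1) Qd.x1 with hσ
  have eT : Sx (fun k => k * Qd.tt k) (3*i+1) Qd.x1 = σ + AA3 ((3*i:ℕ):ℚ) * nu * Sx Qd.tt (3*i+1) Qd.x1 := by rw [hσ]; ring
  rw [eT]
  set α := (Sx Qd.tt (3*i+1) Qd.x1).re with hα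
  set β := (Sx Qd.tt (3*i+1) Qd.x1).im with hβ
  set U := (eE^(3*i)).re with hU
  set V := (eE^(3*i)).im with hV
  have nU : N1 p U (-2*l) (-3*l*w) := ⟨hUe, Dv_eq (by ring) (c2.mul0 l0).neg, Dv_eq (by ring) ((c3.mul0 l0).mul0 w0).neg⟩
  have nV : N1 p V l (2*l*w) := ⟨Dv_eq (by rw [hVe]; ring) (Dv.zero (p := p) 2), l0, (c2.mul0 l0).mul0 w0⟩
  have nr : N1 p (V*α - U*β) (l*c*f) (l*c*f*(2/3*x2 - 1/3*x3)) := by
    refine ((nV.mul nR).sub (nU.mul nI)).congr rfl ?_ ?_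
    · ring
    · ring
  have nh : N1 p ((3*i:ℕ):ℚ) (-(1/2)) (1/2) := by
    refine ⟨?_, (half_int' p3).neg, half_int' p3⟩
    have : (p:ℚ) = 2*((3*i:ℕ):ℚ)+1 := by exact_mod_cast hh
    refine Dv_eq ?_ (Dv.zero (p := p) 2)
    rw [this]; ring
  have n2c := N1.intc (p := p) 2
  have n3c := N1.intc (p := p) 3
  constructor
  · refine nr.congr ?_ rfl rfl
    simp only [QuadraticAlgebra.re_sub, QuadraticAlgebra.im_sub, QuadraticAlgebra.re_mul, QuadraticAlgebra.im_mul, A3_re, A3_im, cj_re, cj_im]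
    ring
  · have n1 := ((((n2c.mul nU).sub (n3c.mul nV)).mul nσr).add ((n3c.mul (nU.sub (n2c.mul nV))).mul nσi)).sub ((n2c.mul nh).mul nr)
    refine n1.congr ?_ ?_ ?_
    · have r1 : nu.re = 2 := rfl
      have r2 : nu.im = -2/3 := rfl
      have r3 : u1.re = -7 := rfl
      have r4 : u1.im = 4 := rfl
      have r5 : Qd.x1.re = 8 := rfl
      have r6 : Qd.x1.im = 4 := rfl
      have r7 : eE.re = 2 := rfl
      have r8 : eE.im = 1 := rfl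
      simp only [QuadraticAlgebra.re_sub, QuadraticAlgebra.im_sub, QuadraticAlgebra.re_add, QuadraticAlgebra.im_add, QuadraticAlgebra.re_mul, QuadraticAlgebra.im_mul, A3_re, A3_im, cj_re, cj_im, r1, r2, r3, r4, r5, r6, r7, r8]
      push_cast
      ring
    · push_cast; ring
    · push_cast; ring

/-- the two congruences of part (a) -/
theorem z6_odd (p3 : 3 < p) {i : ℕ} (hi : p = 6*i+1) (i1 : 1 ≤ i) (hodd : i % 2 = 1) {j : ℕ} (hj : 3*i = 2*j+1)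
    {x y : ℤ} (h : x^2 + 3*y^2 = p) (hx : x % 3 = 1) (hy : y % 4 = 1) :
    Dv p 2 (-2*(Sg A12 Qd.tt (3*i+1) zz).im.im - (-1)^j * (4*(y:ℚ) - p/(3*(y:ℚ)))) ∧
    Dv p 2 (-2*(Sg A12 (fun k => k * Qd.tt k) (3*i+1) zz).im.im - (-1)^(j+1) * (y:ℚ)) := by
  have hh : p = 2*(3*i)+1 := by omega
  obtain ⟨nM, nY⟩ := z6_num p3 hi i1 hodd hj _ _ _ _ _ rfl rfl rfl rfl rfl
  obtain ⟨o1, o2⟩ := odd_pack p3 hi i1 hodd hj h hx hy
  have nI := (first_odd p3 hi i1 hodd hj).1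
  have s12 := S12 (p := p) p3 hh
  have t12 := T12 (p := p) p3 hh
  have mc := M_cong (p := p) p3 hh
  have nc := N_cong (p := p) p3 hh
  have dp := Dv.p1 (p := p)
  have th := half_int' (p := p) p3
  have y0 : y ≠ 0 := by rintro rfl; norm_num at hy
  have yq : (y:ℚ) ≠ 0 := by exact_mod_cast y0
  have l0 : Dv p 0 (((legendreSym p 2 : ℤ) : ℚ)) := Dv.int _
  have p0 : (p:ℚ) ≠ 0 := by exact_mod_cast hp.out.ne_zero
  have op : Dv p 2 (p * (((legendreSym p 2 : ℤ) : ℚ) * ((((legendreSym p 2 : ℤ) : ℚ)*3^j)/CC i) + 1/(6*(y:ℚ)))) := dp.mul o2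
  have hcf := (CC_unit (p := p) hi i1).1
  have s0 : Dv p 0 ((-1:ℚ)^j) := by
    have := Dv.int (p := p) ((-1)^j)
    push_cast at this; exact this
  have hii : (-ii)^(3*i) = -(B12 (AA3 ((-1)^j)) * ii) := by rw [hj]; exact ii_pow j
  have zint := (eE_int (p := p)).pow (3*i)
  -- replace the exact `M`, `N` by their values
  set M := Sx (dd (3*i)) (3*i+1) (cj Qd.x1) with hMd
  set N := Sx (fun k => k * dd (3*i) k) (3*i+1) (cj Qd.x1) with hNd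
  set Mv := AA3 (1/2) * (cj (Sx Qd.tt (3*i+1) Qd.x1) + cj ((1-Qd.x1)^(3*i) * cj (Sx Qd.tt (3*i+1) Qd.x1))) with hMv
  set Nv := AA3 (1/2) * (cj (Sx (fun k => k * Qd.tt k) (3*i+1) Qd.x1) + cj ((1-Qd.x1)^(3*i) * (u1 * cj (Sx (fun k => k * Qd.tt k) (3*i+1) Qd.x1) + AA3 ((3*i:ℕ):ℚ) * cj Qd.x1 * cj (Sx Qd.tt (3*i+1) Qd.x1)))) with hNv
  have c2 : Dv p 0 (2:ℚ) := by have := Dv.nat (p := p) 2; push_cast at this; exact this
  have m1 : Dr p 2 (eE^(3*i) * M - eE^(3*i) * Mv) := Dr_eq (by ring) (mc.mul0 zint)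
  have y1 : Dr p 2 (eE^(3*i) * (cj eE * N - 2 * AA3 ((3*i:ℕ):ℚ) * M) - eE^(3*i) * (cj eE * Nv - 2 * AA3 ((3*i:ℕ):ℚ) * Mv)) := by
    have q1 : Dr p 0 (AA3 2 * AA3 ((3*i:ℕ):ℚ)) := (Dr.A c2).mul0 (Dr.A (Dv.nat _))
    refine Dr_eq ?_ (((nc.mul0 (eE_int (p := p)).cj).sub (mc.mul0 q1)).mul0 zint)
    rw [map_ofNat]; ring
  constructor
  · rw [hii] at s12
    have a := s12.2.2
    have b := (m1.2.mul0 s0)
    have e : (Sg A12 Qd.tt (3*i+1) zz - -(B12 (AA3 ((-1)^j)) * ii) * B12 (eE^(3*i) * M)).im.im = (Sg A12 Qd.tt (3*i+1) zz).im.im + (-1)^j * (eE^(3*i) * M).im := by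
      have i1 : ii.re = 0 := rfl
      have i2 : ii.im = 1 := rfl
      generalize eE^(3*i) * M = q
      generalize ((-1:ℚ)^j) = ε
      simp only [QuadraticAlgebra.im_sub, QuadraticAlgebra.im_mul, QuadraticAlgebra.re_mul, QuadraticAlgebra.im_neg, QuadraticAlgebra.re_neg, B_re, B_im, i1, i2]
      simp [QuadraticAlgebra.im_mul, A3_re, A3_im]
    rw [e] at a
    have c := ((nM.1.sub ((nI.1.mul0 l0).mul0 th)).add (o1.mul0 th)).mul0 s0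
    refine Dv_eq ?_ (((a.sub b).sub c).mul0 (c2.neg))
    rw [QuadraticAlgebra.im_sub]
    field_simp
    ring
  · rw [hii] at t12
    have a := t12.2.2
    have b := (y1.1.mul0 s0)
    have e : (2 * Sg A12 (fun k => k * Qd.tt k) (3*i+1) zz - -(B12 (AA3 ((-1)^j)) * ii) * ii * zz * B12 (eE^(3*i) * (cj eE * N - 2 * AA3 ((3*i:ℕ):ℚ) * M))).im.im =
        2 * (Sg A12 (fun k => k * Qd.tt k) (3*i+1) zz).im.im - (-1)^j * (1/2) * (eE^(3*i) * (cj eE * N - 2 * AA3 ((3*i:ℕ):ℚ) * M)).re := by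
      generalize eE^(3*i) * (cj eE * N - 2 * AA3 ((3*i:ℕ):ℚ) * M) = q
      generalize ((-1:ℚ)^j) = ε
      have e3 : -(B12 (AA3 ε) * ii) * ii * zz * B12 q = B12 (AA3 ε) * (zz * B12 q) := by
        linear_combination (-(B12 (AA3 ε) * zz * B12 q)) * f7
      have e4 : (2:R12) * Sg A12 (fun k => k * Qd.tt k) (3*i+1) zz = Sg A12 (fun k => k * Qd.tt k) (3*i+1) zz + Sg A12 (fun k => k * Qd.tt k) (3*i+1) zz := by ring
      have z1' : zz.re = (⟨1/2,0⟩ : R3) := rfl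
      have z2' : zz.im = (⟨0,1/2⟩ : R3) := rfl
      rw [e3, e4]
      simp only [QuadraticAlgebra.im_sub, QuadraticAlgebra.im_add, QuadraticAlgebra.im_mul, QuadraticAlgebra.re_mul, B_re, B_im, z1', z2']
      simp [QuadraticAlgebra.im_mul, A3_re, A3_im]
      ring
    rw [e] at a
    have c := ((nY.1.sub ((nI.1.mul0 l0).mul0 th)).add ((o1.mul0 th).sub op)).mul0 s0
    refine Dv_eq ?_ ((a.add ((b.add c).mul0 th)).neg)
    rw [QuadraticAlgebra.re_sub]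
    rw [pow_succ]
    field_simp
    ring

end

end

end Pool.Agent.N926.Qe
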