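import Pool.Agent.N926.Qe.L

/-! the even case -/

set_option autoImplicit false
set_option linter.unusedVariables false
set_option linter.unusedSectionVars false
set_option linter.unusedSimpArgs false

namespace Pool.Agent.N926.Qe

open Finset Pool.Agent.N926.Sup2 Pool.Agent.N926.Sup Pool.Agent.N926.F54 Pool.Agent.N926.F37 Pool.Agent.N926.Tri Pool.Agent.N926.Fib Pool.Agent.N926.Qd

noncomputable section

theorem zz_cc : zz * cc zz = 1 := by rw [← f8]; linear_combination f4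

section
variable {p : ℕ} [hp : Fact p.Prime]

theorem z6_even (p3 : 3 < p) {i : ℕ} (hi : p = 6*i+1) (i1 : 1 ≤ i) (hev : i % 2 = 0) :
    Dv p 2 (Sg A12 (fun k => PR p 1 0 k * Qd.tt k) (3*i+1) zz).im.im := by
  have hh : p = 2*(3*i)+1 := by omega
  have h2 : p ≠ 2 := by omega
  have zi := zz_int (p := p) p3
  have hz : zz^(3*i) = 1 := by rw [pow_mul, f14]; exact Even.neg_one_pow ⟨i/2, by omega⟩
  have hcz : (cc zz)^(3*i) = 1 := by rw [← map_pow, hz, map_one]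
  have hsg : (-1:R12)^(3*i) = 1 := Even.neg_one_pow ⟨3*(i/2), by omega⟩
  have A1 := leg0 A12 (3*i) zz
  rw [hsg, one_mul, f8, ← Sg_cc] at A1
  have A2 : (Sg A12 (leg (3*i)) (3*i+1) zz).im = 0 := by
    have := congrArg (fun z : R12 => z.im.re) A1
    have h' := congrArg (fun z : R12 => z.im.im) A1
    simp only [cc_im, QuadraticAlgebra.re_neg, QuadraticAlgebra.im_neg] at this h'
    ext
    · rw [QuadraticAlgebra.re_zero]; linarith
    · rw [QuadraticAlgebra.im_zero]; linarith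
  have a1 : Dq p 2 (Sg A12 (fun k => leg (3*i) k - Qd.tt k) (3*i+1) zz) := Sg_dq _ _ _ _ zi fun k hk => leg_h h2 hh (by omega)
  rw [← Sg_sub] at a1
  have S1 : Dr p 2 (Sg A12 Qd.tt (3*i+1) zz).im := by
    refine Dr_eq ?_ a1.2.neg
    rw [QuadraticAlgebra.im_sub, A2]; ring
  have B1 := pf0 A12 zz zz f4 (3*i)
  rw [f5, f8, hcz, one_mul] at B1
  have e1 : Sg A12 (fun k => (((3*i).choose k : ℕ) : ℚ)^2) (3*i+1) (cc zz) = cc (Sg A12 (pbf (3*i)) (3*i+1) zz) := by rw [Sg_cc]; rfl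
  rw [e1] at B1
  have S2 : (Sg A12 (pbf (3*i)) (3*i+1) zz).im = 0 := by
    rw [B1] at A2
    rw [cc_im] at A2
    exact neg_eq_zero.1 A2
  have C1 := rev0 A12 zz (cc zz) zz_cc (3*i) Qd.tt
  rw [hz, one_mul, ← Sg_cc] at C1
  have S3 : Dr p 2 (Sg A12 (fun k => Qd.tt (3*i-k)) (3*i+1) zz).im := by
    rw [C1, cc_im]; exact S1.neg
  have T := tth_LR (p := p) hh p3
  have ti : Dv p 0 (1/Qd.tt (3*i)) := Dv.one.div_unit T.unit.2
  have co : ∀ k < 3*i+1, Dv p 2 (PR p 1 0 k * Qd.tt k - (Qd.tt k + pbf (3*i) k - 1/Qd.tt (3*i) * Qd.tt (3*i-k))) := by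
    intro k hk
    have L := PR_LR (p := p) Dv.one (m := 0) (k := k) (by omega)
    have r := (rev_c1 (p := p) hh p3 (show k ≤ 3*i by omega)).mul0 ti
    have t0 := T.unit.1
    refine Dv_eq ?_ ((L.1.mul0 (tt_int (p := p) h2 k)).add r)
    rw [zero_add, Hs_zero]
    field_simp
    ring
  have F1 : Dq p 2 (Sg A12 (fun k => PR p 1 0 k * Qd.tt k - (Qd.tt k + pbf (3*i) k - 1/Qd.tt (3*i) * Qd.tt (3*i-k))) (3*i+1) zz) := Sg_dq _ _ _ _ zi co
  rw [← Sg_sub] at F1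
  have e2 : Sg A12 (fun k => Qd.tt k + pbf (3*i) k - 1/Qd.tt (3*i) * Qd.tt (3*i-k)) (3*i+1) zz =
      Sg A12 Qd.tt (3*i+1) zz + Sg A12 (pbf (3*i)) (3*i+1) zz - A12 (1/Qd.tt (3*i)) * Sg A12 (fun k => Qd.tt (3*i-k)) (3*i+1) zz := by
    unfold Sg
    rw [mul_sum, ← sum_add_distrib, ← sum_sub_distrib]
    refine sum_congr rfl fun k _ => ?_
    rw [map_sub, map_add, map_mul]
    ring
  rw [e2] at F1
  have F2 : Dr p 2 ((A12 (1/Qd.tt (3*i)) * Sg A12 (fun k => Qd.tt (3*i-k)) (3*i+1) zz).im) := by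
    refine Dr_eq ?_ (S3.mul0 (Dr.A ti))
    rw [QuadraticAlgebra.im_mul, A12_re, A12_im]
    ring
  have F3 : Dr p 2 (Sg A12 (fun k => PR p 1 0 k * Qd.tt k) (3*i+1) zz).im := by
    refine Dr_eq ?_ ((F1.2.add S1).sub F2)
    generalize A12 (1/Qd.tt (3*i)) * Sg A12 (fun k => Qd.tt (3*i-k)) (3*i+1) zz = G
    rw [QuadraticAlgebra.im_sub, QuadraticAlgebra.im_sub, QuadraticAlgebra.im_add, S2]
    ring
  exact F3.2

end

end

end Pool.Agent.N926.Qe
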